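import Mathlib
import Pool.Agent.N830.HC.K.Final

/-!
# The number of the classes
-/

set_option linter.unusedSectionVars false

namespace Pool.Agent.N830.HC.K

open NumberField Pool.Agent.H204R3.CM Pool.Agent.W547.KB Module

noncomputable section

section one

variable {L : Type} [Field L] [NumberField L] [IsCMField L]

open Classical in
/-- Representatives of the pairs of conjugate embeddings. -/
def rep (j j' : L →+* ℂ) (w : InfinitePlace L) : L →+* ℂ :=
  if w = InfinitePlace.mk j then j else if w = InfinitePlace.mk j' then j' else w.embedding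

variable {j j' : L →+* ℂ}

theorem mk_rep (w : InfinitePlace L) : InfinitePlace.mk (rep j j' w) = w := by
  unfold rep
  split_ifs with h1 h2
  · exact h1.symm
  · exact h2.symm
  · exact InfinitePlace.mk_embedding w

theorem rep_j : rep j j' (InfinitePlace.mk j) = j := if_pos rfl

theorem rep_j' (h : InfinitePlace.mk j' ≠ InfinitePlace.mk j) :
    rep j j' (InfinitePlace.mk j') = j' := by
  unfold rep
  rw [if_neg h, if_pos rfl]

theorem rep_cases (φ : L →+* ℂ) : φ = rep j j' (InfinitePlace.mk φ) ∨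
    φ = ComplexEmbedding.conjugate (rep j j' (InfinitePlace.mk φ)) := by
  have h1 : InfinitePlace.mk (rep j j' (InfinitePlace.mk φ)) = InfinitePlace.mk φ := mk_rep _
  rcases InfinitePlace.mk_eq_iff.1 h1 with h2 | h2
  · exact Or.inl h2.symm
  · exact Or.inr h2.symm

theorem conj_ne' (φ : L →+* ℂ) : ComplexEmbedding.conjugate φ ≠ φ := fun h =>
  NumberField.IsTotallyComplex.complexEmbedding_not_isReal φ h

theorem mk_conj (φ : L →+* ℂ) :
    InfinitePlace.mk (ComplexEmbedding.conjugate φ) = InfinitePlace.mk φ :=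
  InfinitePlace.mk_conjugate_eq φ

/-- CM types are determined by the representatives. -/
theorem type_eq {Ψ Ψ' : Set (L →+* ℂ)} (h : IsCMType Ψ) (h' : IsCMType Ψ')
    (hr : ∀ w, rep j j' w ∈ Ψ ↔ rep j j' w ∈ Ψ') : Ψ = Ψ' := by
  ext φ
  rcases rep_cases (j := j) (j' := j') φ with h1 | h1
  · rw [h1]
    exact hr _
  · have h2 : ComplexEmbedding.conjugate φ = rep j j' (InfinitePlace.mk φ) := by
      conv_lhs => rw [h1]
      exact star_star _
    rw [h φ, h' φ, h2, not_iff_not]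
    exact hr _

/-- The number of CM types which contain two given embeddings. -/
theorem card_types (h : InfinitePlace.mk j' ≠ InfinitePlace.mk j) {m : ℕ}
    (hm : finrank ℚ L = 2 * m) :
    Nat.card {Ψ : Set (L →+* ℂ) // IsCMType Ψ ∧ j ∈ Ψ ∧ j' ∈ Ψ} = 2 ^ (m - 2) := by
  classical
  let W := InfinitePlace L
  let F : {Ψ : Set (L →+* ℂ) // IsCMType Ψ ∧ j ∈ Ψ ∧ j' ∈ Ψ} →
      ↥(Finset.Icc ({InfinitePlace.mk j, InfinitePlace.mk j'} : Finset W) Finset.univ) :=
    fun Ψ => ⟨Finset.univ.filter fun w => rep j j' w ∈ Ψ.1, by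
      rw [Finset.mem_Icc]
      refine ⟨?_, Finset.subset_univ _⟩
      intro w hw
      rw [Finset.mem_insert, Finset.mem_singleton] at hw
      rw [Finset.mem_filter]
      refine ⟨Finset.mem_univ _, ?_⟩
      rcases hw with rfl | rfl
      · rw [rep_j]
        exact Ψ.2.2.1
      · rw [rep_j' h]
        exact Ψ.2.2.2⟩
  have hFm : ∀ (Ψ : {Ψ : Set (L →+* ℂ) // IsCMType Ψ ∧ j ∈ Ψ ∧ j' ∈ Ψ}) (w : W),
      w ∈ (F Ψ).1 ↔ rep j j' w ∈ Ψ.1 := by
    intro Ψ w
    simp [F]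
  have hF : Function.Bijective F := by
    constructor
    · intro Ψ Ψ' hΨ
      apply Subtype.ext
      refine type_eq (j := j) (j' := j') Ψ.2.1 Ψ'.2.1 fun w => ?_
      have h1 : w ∈ (F Ψ).1 ↔ w ∈ (F Ψ').1 := by rw [hΨ]
      rwa [hFm, hFm] at h1
    · rintro ⟨T, hT⟩
      rw [Finset.mem_Icc] at hT
      let Ψ : Set (L →+* ℂ) := {φ | (φ = rep j j' (InfinitePlace.mk φ) ∧ InfinitePlace.mk φ ∈ T) ∨
        (φ ≠ rep j j' (InfinitePlace.mk φ) ∧ InfinitePlace.mk φ ∉ T)}
      have hrep : ∀ w, rep j j' w ∈ Ψ ↔ w ∈ T := by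
        intro w
        have h1 : InfinitePlace.mk (rep j j' w) = w := mk_rep w
        change (_ ∧ _) ∨ (_ ∧ _) ↔ _
        rw [h1]
        tauto
      refine ⟨⟨Ψ, fun φ => ?_, ?_, ?_⟩, ?_⟩
      · have h1 : ComplexEmbedding.conjugate φ = rep j j' (InfinitePlace.mk φ) ↔
            φ ≠ rep j j' (InfinitePlace.mk φ) := by
          constructor
          · intro h2 h3
            exact conj_ne' φ (h2.trans h3.symm)
          · intro h2
            rcases rep_cases (j := j) (j' := j') φ with h3 | h3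
            · exact absurd h3 h2
            · conv_lhs => rw [h3]
              exact star_star _
        change ((_ ∧ _) ∨ (_ ∧ _)) ↔ ¬ ((_ ∧ _) ∨ (_ ∧ _))
        rw [mk_conj, ne_eq, ne_eq, h1]
        tauto
      · have h1 := (hrep (InfinitePlace.mk j)).2 (hT.1 (by simp))
        rwa [rep_j] at h1
      · have h1 := (hrep (InfinitePlace.mk j')).2 (hT.1 (by simp))
        rwa [rep_j' h] at h1
      · apply Subtype.ext
        ext w
        exact (hFm _ w).trans (hrep w)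
  rw [Nat.card_congr (Equiv.ofBijective F hF), Nat.card_eq_fintype_card, Fintype.card_coe,
    Finset.card_Icc_finset (Finset.subset_univ _), Finset.card_univ,
    Finset.card_pair (fun h1 => h h1.symm)]
  have h1 : finrank ℚ L = 2 * InfinitePlace.nrComplexPlaces L := IsTotallyComplex.finrank L
  have h2 : Fintype.card W = m := by
    rw [InfinitePlace.card_eq_nrRealPlaces_add_nrComplexPlaces,
      IsTotallyComplex.nrRealPlaces_eq_zero L]
    omega
  rw [h2]

/-- The CM type which has exactly one element in common with the given one. -/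
def tog (a : L →+* ℂ) (Ψ : Set (L →+* ℂ)) : Set (L →+* ℂ) :=
  {φ | φ = a ∨ (φ ∉ Ψ ∧ φ ≠ ComplexEmbedding.conjugate a)}

theorem conj_conj (φ : L →+* ℂ) :
    ComplexEmbedding.conjugate (ComplexEmbedding.conjugate φ) = φ := star_star _

theorem conj_eq_iff (φ a : L →+* ℂ) : ComplexEmbedding.conjugate φ = a ↔
    φ = ComplexEmbedding.conjugate a := by
  constructor
  · rintro rfl
    exact (conj_conj φ).symm
  · rintro rfl
    exact conj_conj a

theorem mem_tog {a : L →+* ℂ} {Ψ : Set (L →+* ℂ)} (φ : L →+* ℂ) :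
    φ ∈ tog a Ψ ↔ φ = a ∨ (φ ∉ Ψ ∧ φ ≠ ComplexEmbedding.conjugate a) := Iff.rfl

theorem tog_type {a : L →+* ℂ} {Ψ : Set (L →+* ℂ)} (h : IsCMType Ψ) : IsCMType (tog a Ψ) := by
  intro φ
  have h1 := h φ
  have h2 := conj_ne' a
  rw [mem_tog, mem_tog, conj_eq_iff]
  have h3 : ComplexEmbedding.conjugate φ = ComplexEmbedding.conjugate a ↔ φ = a := by
    rw [conj_eq_iff, conj_conj]
  rw [ne_eq (ComplexEmbedding.conjugate φ), h3]
  by_cases h4 : φ = a
  · subst h4
    tauto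
  · by_cases h5 : φ = ComplexEmbedding.conjugate a
    · subst h5
      tauto
    · tauto

theorem meet_iff {a : L →+* ℂ} {Ψ Ψ' : Set (L →+* ℂ)} (h : IsCMType Ψ) (h' : IsCMType Ψ') :
    Ψ ∩ Ψ' = {a} ↔ a ∈ Ψ ∧ Ψ' = tog a Ψ := by
  constructor
  · intro h1
    have ha : a ∈ Ψ ∩ Ψ' := by rw [h1]; rfl
    have h2 : ∀ φ, φ ∈ Ψ → φ ∈ Ψ' → φ = a := fun φ h3 h4 => by
      have h5 : φ ∈ Ψ ∩ Ψ' := ⟨h3, h4⟩
      rwa [h1] at h5
    refine ⟨ha.1, ?_⟩
    ext φ
    rw [mem_tog]
    constructor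
    · intro h3
      by_cases h4 : φ = a
      · exact Or.inl h4
      · refine Or.inr ⟨fun h5 => h4 (h2 φ h5 h3), ?_⟩
        rintro rfl
        exact (h' a).1 ha.2 h3
    · rintro (rfl | ⟨h3, h4⟩)
      · exact ha.2
      · by_contra h5
        have h6 : ComplexEmbedding.conjugate φ ∈ Ψ := by
          by_contra h7
          exact h3 ((h φ).2 h7)
        have h7 : ComplexEmbedding.conjugate φ ∈ Ψ' := by
          by_contra h8
          exact h5 ((h' φ).2 h8)
        exact h4 ((conj_eq_iff _ _).1 (h2 _ h6 h7))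
  · rintro ⟨h1, rfl⟩
    ext φ
    rw [Set.mem_inter_iff, mem_tog, Set.mem_singleton_iff]
    constructor
    · rintro ⟨h2, h3 | h3⟩
      · exact h3
      · exact absurd h2 h3.1
    · rintro rfl
      exact ⟨h1, Or.inl rfl⟩

theorem tog_tog {a : L →+* ℂ} {Ψ : Set (L →+* ℂ)} (h : IsCMType Ψ) (ha : a ∈ Ψ) :
    tog a (tog a Ψ) = Ψ := by
  have h1 : Ψ ∩ tog a Ψ = {a} := (meet_iff h (tog_type h)).2 ⟨ha, rfl⟩
  rw [Set.inter_comm] at h1
  exact ((meet_iff (tog_type h) h).1 h1).2.symm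

theorem compl_type {Ψ : Set (L →+* ℂ)} (h : IsCMType Ψ) : IsCMType Ψᶜ := by
  intro φ
  have h1 := h φ
  rw [Set.mem_compl_iff, Set.mem_compl_iff]
  tauto

theorem tog_compl {a : L →+* ℂ} {Ψ : Set (L →+* ℂ)} (h : IsCMType Ψ)
    (ha : ComplexEmbedding.conjugate a ∈ Ψ) :
    tog a (tog (ComplexEmbedding.conjugate a) Ψ)ᶜ = Ψᶜ := by
  have h3 : a ∉ Ψ := fun h1 => (h a).1 h1 ha
  have h4 := conj_ne' a
  ext φ
  rw [mem_tog, Set.mem_compl_iff, mem_tog, conj_conj, Set.mem_compl_iff]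
  by_cases h5 : φ = a
  · subst h5
    tauto
  · by_cases h6 : φ = ComplexEmbedding.conjugate a
    · subst h6
      tauto
    · tauto

end one

section count

variable {B : CMPair} {L : Type} [Field L] [NumberField L] [IsCMField L]
  {j j' : L →+* ℂ}

/-- The CM type induced from `B`. -/
def ind (B : CMPair) (ι : B.E →+* L) : Set (L →+* ℂ) := {φ | φ.comp ι ∈ B.Φ}

theorem ind_type (ι : B.E →+* L) : IsCMType (ind B ι) := fun φ => B.isCMType (φ.comp ι)

theorem quad_iff (ι : B.E →+* L) (Φ : Fin 3 → Set (L →+* ℂ)) :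
    Quad B j j' ι Φ ↔ ComplexEmbedding.conjugate j ∈ ind B ι ∧
      (IsCMType (Φ 0) ∧ j ∈ Φ 0 ∧ j' ∈ Φ 0) ∧ Φ 1 = tog j (Φ 0) ∧
      Φ 2 = tog (ComplexEmbedding.conjugate j) (ind B ι) ∧
      Φ 0 ≠ (tog (ComplexEmbedding.conjugate j) (ind B ι))ᶜ ∧ Φ 0 ≠ (ind B ι)ᶜ := by
  constructor
  · rintro ⟨h1, h2, h3, h4, h5, h6⟩
    obtain ⟨h7, h8⟩ := (meet_iff (h1 0) (h1 1)).1 h2
    have h9 : ind B ι ∩ Φ 2 = {ComplexEmbedding.conjugate j} := by
      rw [Set.inter_comm]
      exact h3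
    obtain ⟨h10, h11⟩ := (meet_iff (ind_type ι) (h1 2)).1 h9
    refine ⟨h10, ⟨h1 0, h7, h4⟩, h8, h11, by rw [← h11]; exact h5, fun h12 => h6 ?_⟩
    rw [h8, h12, ← tog_compl (ind_type ι) h10, h11, tog_tog (compl_type (tog_type (ind_type ι)))]
    intro h13
    rcases h13 with h14 | h14
    · exact conj_ne' j h14.symm
    · exact h14.2 (conj_conj j).symm
  · rintro ⟨h1, ⟨h2, h3, h4⟩, h5, h6, h7, h8⟩
    refine ⟨fun i => ?_, ?_, ?_, h4, ?_, ?_⟩
    · fin_cases i
      · exact h2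
      · change IsCMType (Φ 1)
        rw [h5]
        exact tog_type h2
      · change IsCMType (Φ 2)
        rw [h6]
        exact tog_type (ind_type ι)
    · rw [h5]
      exact (meet_iff h2 (tog_type h2)).2 ⟨h3, rfl⟩
    · rw [h6, Set.inter_comm]
      exact (meet_iff (ind_type ι) (tog_type (ind_type ι))).2 ⟨h1, rfl⟩
    · rw [h6]
      exact h7
    · rw [h5, h6]
      intro h9
      apply h8
      rw [← tog_tog h2 h3, h9]
      exact tog_compl (ind_type ι) h1

/-- The number of the classes. -/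
theorem card_quad [IsGalois ℚ L] (h : j' ≠ j) (hc : j' ≠ ComplexEmbedding.conjugate j)
    (ι₀ : B.E →+* L) {m : ℕ} (hm : finrank ℚ L = 2 * m) :
    Nat.card {p : (B.E →+* L) × (Fin 3 → Set (L →+* ℂ)) // Quad B j j' p.1 p.2} =
      Nat.card B.Φ * (2 ^ (m - 2) - 1) := by
  classical
  have hmk : InfinitePlace.mk j' ≠ InfinitePlace.mk j := by
    intro h1
    rcases InfinitePlace.mk_eq_iff.1 h1 with h2 | h2
    · exact h h2
    · exact hc ((conj_eq_iff _ _).1 h2)
  let C := {Ψ : Set (L →+* ℂ) // IsCMType Ψ ∧ j ∈ Ψ ∧ j' ∈ Ψ}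
  let I := {ι : B.E →+* L // ComplexEmbedding.conjugate j ∈ ind B ι}
  let D : I → Set (L →+* ℂ) := fun ι =>
    if j' ∈ ind B ι.1 then (tog (ComplexEmbedding.conjugate j) (ind B ι.1))ᶜ else (ind B ι.1)ᶜ
  -- the exceptional type
  have hD : ∀ ι : I, IsCMType (D ι) ∧ j ∈ D ι ∧ j' ∈ D ι := by
    intro ι
    have h1 : j ∉ ind B ι.1 := fun h2 => (ind_type ι.1 j).1 h2 ι.2
    have hne := conj_ne' j
    by_cases h2 : j' ∈ ind B ι.1
    · have h3 : D ι = (tog (ComplexEmbedding.conjugate j) (ind B ι.1))ᶜ := if_pos h2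
      rw [h3]
      refine ⟨compl_type (tog_type (ind_type _)), ?_, ?_⟩
      · rw [Set.mem_compl_iff, mem_tog, conj_conj]
        tauto
      · rw [Set.mem_compl_iff, mem_tog, conj_conj]
        tauto
    · have h3 : D ι = (ind B ι.1)ᶜ := if_neg h2
      rw [h3]
      exact ⟨compl_type (ind_type _), h1, h2⟩
  have hDi : ∀ (ι : I) (Ψ : Set (L →+* ℂ)), j' ∈ Ψ →
      ((Ψ ≠ (tog (ComplexEmbedding.conjugate j) (ind B ι.1))ᶜ ∧ Ψ ≠ (ind B ι.1)ᶜ) ↔ Ψ ≠ D ι) := by
    intro ι Ψ hΨ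
    by_cases h2 : j' ∈ ind B ι.1
    · have h3 : D ι = (tog (ComplexEmbedding.conjugate j) (ind B ι.1))ᶜ := if_pos h2
      rw [h3]
      refine ⟨fun h4 => h4.1, fun h4 => ⟨h4, ?_⟩⟩
      rintro rfl
      exact hΨ h2
    · have h3 : D ι = (ind B ι.1)ᶜ := if_neg h2
      rw [h3]
      refine ⟨fun h4 => h4.2, fun h4 => ⟨?_, h4⟩⟩
      rintro rfl
      apply hΨ
      rw [mem_tog, conj_conj]
      exact Or.inr ⟨h2, h⟩
  let e : {p : (B.E →+* L) × (Fin 3 → Set (L →+* ℂ)) // Quad B j j' p.1 p.2} ≃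
      Σ ι : I, {Ψ : C // Ψ ≠ ⟨D ι, hD ι⟩} :=
    { toFun := fun p => ⟨⟨p.1.1, ((quad_iff _ _).1 p.2).1⟩,
        ⟨⟨p.1.2 0, ((quad_iff _ _).1 p.2).2.1⟩, fun h1 => by
          have h2 := ((quad_iff _ _).1 p.2).2.2.2.2
          exact (hDi ⟨p.1.1, ((quad_iff _ _).1 p.2).1⟩ _ ((quad_iff _ _).1 p.2).2.1.2.2).1 h2
            (congrArg Subtype.val h1)⟩⟩
      invFun := fun q => ⟨(q.1.1, ![q.2.1.1, tog j q.2.1.1,
          tog (ComplexEmbedding.conjugate j) (ind B q.1.1)]),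
        (quad_iff _ _).2 ⟨q.1.2, q.2.1.2, rfl, rfl,
          (hDi q.1 _ q.2.1.2.2.2).2 fun h1 => q.2.2 (Subtype.ext h1)⟩⟩
      left_inv := fun p => by
        obtain ⟨⟨ι, Φ⟩, hp⟩ := p
        apply Subtype.ext
        refine Prod.ext rfl ?_
        have h1 := (quad_iff _ _).1 hp
        funext i
        fin_cases i
        · rfl
        · exact h1.2.2.1.symm
        · exact h1.2.2.2.1.symm
      right_inv := fun q => rfl }
  have hfI : Finite I := inferInstance
  have hfC : Finite C := inferInstance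
  have := Fintype.ofFinite I
  rw [Nat.card_congr e, Nat.card_sigma]
  have h1 : ∀ ι : I, Nat.card {Ψ : C // Ψ ≠ ⟨D ι, hD ι⟩} = 2 ^ (m - 2) - 1 := by
    intro ι
    have h2 := card_types hmk hm
    have := Fintype.ofFinite C
    rw [← h2, Nat.card_eq_fintype_card, Nat.card_eq_fintype_card, Fintype.card_subtype_compl,
      Fintype.card_subtype_eq]
  rw [Finset.sum_congr rfl fun ι _ => h1 ι, Finset.sum_const, smul_eq_mul, Finset.card_univ,
    ← Nat.card_eq_fintype_card]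
  congr 1
  refine Nat.card_congr (Equiv.ofBijective
    (fun ι : I => (⟨(ComplexEmbedding.conjugate j).comp ι.1, ι.2⟩ : B.Φ)) ⟨?_, ?_⟩)
  · intro ι ι' h2
    apply Subtype.ext
    have h3 := congrArg Subtype.val h2
    ext x
    exact (ComplexEmbedding.conjugate j).injective (RingHom.congr_fun h3 x)
  · rintro ⟨ψ, hψ⟩
    obtain ⟨φ, hφ⟩ := exists_factor (ComplexEmbedding.conjugate j) ι₀ ψ
    refine ⟨⟨φ, ?_⟩, Subtype.ext hφ⟩
    change (ComplexEmbedding.conjugate j).comp φ ∈ B.Φ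
    rw [hφ]
    exact hψ

end count

end

end Pool.Agent.N830.HC.K
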