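import Mathlib
import Pool.Agent.R915.G6
import Pool.Agent.R915.H1
import Pool.Agent.H204R3.CM.Expand
import Pool.Agent.W547.LD.Field

/-!
# Abelian varieties with an action of a number field of degree twice the dimension
-/

set_option linter.unusedSectionVars false

namespace Pool.Agent.N830.HC

open Module Pool.Agent.Y90 Pool.Agent.R915 NumberField
open Pool.Agent.H204R3.CM (IsCMType span_per)

noncomputable section

variable (Y : AV) (K : Type) [Field K] [NumberField K] (e : Y.H ≃ₗ[ℚ] K)

/-- The multiplication by an element of `K` on `H_1(Y, ℚ)`. -/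
def act (a : K) : Y.H →ₗ[ℚ] Y.H :=
  e.symm.toLinearMap.comp ((LinearMap.mulLeft ℚ a).comp e.toLinearMap)

theorem act_apply (a : K) (v : Y.H) : act Y K e a v = e.symm (a * e v) := rfl

theorem e_act (a : K) (v : Y.H) : e (act Y K e a v) = a * e v := by
  rw [act_apply, LinearEquiv.apply_symm_apply]

/-- The basis of the tangent space. -/
theorem exists_L : ∃ L : (K →+* ℂ) → (Y.T →ₗ[ℝ] ℂ), ∀ φ v, L φ (Y.per v) = φ (e v) := by
  let b := finBasis ℚ Y.H
  obtain ⟨β, hβ⟩ := exists_realBasis Y b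
  refine ⟨fun φ => β.constr ℝ fun k => φ (e (b k)), fun φ v => ?_⟩
  conv_lhs => rw [← b.sum_repr v]
  conv_rhs => rw [← b.sum_repr v]
  rw [map_sum, map_sum, map_sum, map_sum]
  refine Finset.sum_congr rfl fun k _ => ?_
  rw [per_smul, map_smul, ← hβ, Basis.constr_basis, map_smul, Algebra.smul_def (b.repr v k) (e (b k)),
    map_mul]
  have h1 : φ ((algebraMap ℚ K) (b.repr v k)) = (b.repr v k : ℂ) := by
    rw [eq_ratCast, map_ratCast]
  rw [h1, Complex.real_smul, Complex.ofReal_ratCast]

/-- The real linear forms on the tangent space. -/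
def L (φ : K →+* ℂ) : Y.T →ₗ[ℝ] ℂ := (exists_L Y K e).choose φ

theorem L_per (φ : K →+* ℂ) (v : Y.H) : L Y K e φ (Y.per v) = φ (e v) :=
  (exists_L Y K e).choose_spec φ v

/-- Real linear maps which agree on the periods. -/
theorem ext_per {M : Type} [AddCommGroup M] [Module ℝ M] {f g : Y.T →ₗ[ℝ] M}
    (h : ∀ v, f (Y.per v) = g (Y.per v)) : f = g :=
  LinearMap.ext_on_range Y.span h

theorem L_conj (φ : K →+* ℂ) (t : Y.T) :
    L Y K e (ComplexEmbedding.conjugate φ) t = starRingEnd ℂ (L Y K e φ t) := by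
  have h1 : L Y K e (ComplexEmbedding.conjugate φ) =
      (Complex.conjAe.toLinearMap).comp (L Y K e φ) := by
    refine ext_per Y fun v => ?_
    rw [L_per, LinearMap.comp_apply, L_per]
    rfl
  rw [h1]
  rfl

variable (hK : ∀ a : K, IsHom Y Y (act Y K e a))

/-- The tangent action. -/
def Tn (a : K) : Y.T →ₗ[ℂ] Y.T := (hK a).choose

theorem Tn_per (a : K) (v : Y.H) : Tn Y K e hK a (Y.per v) = Y.per (act Y K e a v) :=
  (hK a).choose_spec v

theorem L_Tn (φ : K →+* ℂ) (a : K) (t : Y.T) :
    L Y K e φ (Tn Y K e hK a t) = φ a * L Y K e φ t := by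
  have h1 : (L Y K e φ).comp ((Tn Y K e hK a).restrictScalars ℝ) =
      (LinearMap.mulLeft ℝ (φ a)).comp (L Y K e φ) := by
    refine ext_per Y fun v => ?_
    rw [LinearMap.comp_apply, LinearMap.comp_apply, LinearMap.restrictScalars_apply, Tn_per, L_per,
      e_act, map_mul, LinearMap.mulLeft_apply, L_per]
  exact LinearMap.congr_fun h1 t

include hK in
/-- The multiplication by `i` in the forms. -/
theorem L_I (φ : K →+* ℂ) : ∃ c : ℂ, c * c = -1 ∧
    ∀ t, L Y K e φ (Complex.I • t) = c * L Y K e φ t := by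
  let v0 : Y.H := e.symm 1
  have hv0 : L Y K e φ (Y.per v0) = 1 := by
    rw [L_per, LinearEquiv.apply_symm_apply, map_one]
  let c : ℂ := L Y K e φ (Complex.I • Y.per v0)
  have h1 : ∀ v, Y.per v = Tn Y K e hK (e v) (Y.per v0) := by
    intro v
    rw [Tn_per, act_apply, LinearEquiv.apply_symm_apply, mul_one, LinearEquiv.symm_apply_apply]
  let J : Y.T →ₗ[ℝ] Y.T := (Complex.I • (LinearMap.id : Y.T →ₗ[ℂ] Y.T)).restrictScalars ℝ
  have hJ : ∀ t, J t = Complex.I • t := fun t => rfl
  have h2 : (L Y K e φ).comp J = (LinearMap.mulLeft ℝ c).comp (L Y K e φ) := by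
    refine ext_per Y fun v => ?_
    rw [LinearMap.comp_apply, hJ, LinearMap.comp_apply, LinearMap.mulLeft_apply, L_per, h1,
      ← map_smul, L_Tn, mul_comm]
  have h3 : ∀ t, L Y K e φ (Complex.I • t) = c * L Y K e φ t := fun t => LinearMap.congr_fun h2 t
  refine ⟨c, ?_, h3⟩
  have h4 := h3 (Complex.I • Y.per v0)
  rw [smul_smul, Complex.I_mul_I, neg_smul, one_smul, map_neg, hv0] at h4
  exact h4.symm

/-- The type. -/
def typ : Set (K →+* ℂ) := {φ | ∀ t, L Y K e φ (Complex.I • t) = Complex.I * L Y K e φ t}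

include hK in
theorem isCMType_typ : IsCMType (typ Y K e) := by
  intro φ
  have hv0 : ∀ φ : K →+* ℂ, L Y K e φ (Y.per (e.symm 1)) = 1 := by
    intro φ
    rw [L_per, LinearEquiv.apply_symm_apply, map_one]
  obtain ⟨c, hc, h1⟩ := L_I Y K e hK φ
  have hc' : c = Complex.I ∨ c = -Complex.I := by
    have h2 : (c - Complex.I) * (c + Complex.I) = 0 := by
      linear_combination hc - Complex.I_mul_I
    rcases mul_eq_zero.1 h2 with h3 | h3
    · exact Or.inl (sub_eq_zero.1 h3)
    · exact Or.inr (eq_neg_of_add_eq_zero_left h3)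
  have hne : (Complex.I : ℂ) ≠ -Complex.I := by
    intro h
    have h2 := congrArg Complex.im h
    rw [Complex.neg_im, Complex.I_im] at h2
    norm_num at h2
  rcases hc' with rfl | rfl
  · refine ⟨fun _ h2 => ?_, fun _ => h1⟩
    have h3 := h2 (Y.per (e.symm 1))
    rw [L_conj, h1, map_mul, Complex.conj_I, L_conj, hv0, map_one, mul_one, mul_one] at h3
    exact hne h3.symm
  · refine ⟨fun h2 => ?_, fun h2 => ?_⟩
    · exfalso
      have h3 := h2 (Y.per (e.symm 1))
      rw [h1, hv0, mul_one, mul_one] at h3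
      exact hne h3.symm
    · exfalso
      refine h2 fun t => ?_
      rw [L_conj, L_conj, h1, map_mul, map_neg, Complex.conj_I, neg_neg]

/-- The coordinates of the tangent space. -/
def Ps : Y.T →ₗ[ℂ] (typ Y K e → ℂ) where
  toFun t := fun φ => L Y K e φ.1 t
  map_add' s t := by
    funext φ
    exact map_add _ _ _
  map_smul' c t := by
    funext φ
    have h1 : c • t = c.re • t + c.im • (Complex.I • t) := by
      conv_lhs => rw [← Complex.re_add_im c]
      rw [add_smul, mul_smul, Complex.coe_smul, Complex.coe_smul]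
    change L Y K e φ.1 (c • t) = c * L Y K e φ.1 t
    rw [h1, map_add, map_smul, map_smul, φ.2 t, Complex.real_smul, Complex.real_smul]
    conv_rhs => rw [← Complex.re_add_im c]
    ring

theorem Ps_per (v : Y.H) (φ : typ Y K e) : Ps Y K e (Y.per v) φ = φ.1 (e v) := L_per Y K e φ.1 v

include hK in
theorem Ps_surj : Function.Surjective (Ps Y K e) := by
  have h0 := isCMType_typ Y K e hK
  have h1 : Submodule.span ℝ (Set.range (Pool.Agent.H204R3.CM.per (E := fun _ : Unit => K)
      (fun _ => typ Y K e) (fun i : Unit => i))) = ⊤ :=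
    span_per (E := fun _ : Unit => K) (fun i : Unit => i) (fun _ => h0)
  let ev : (∀ _ : Unit, (typ Y K e → ℂ)) →ₗ[ℝ] (typ Y K e → ℂ) := LinearMap.proj ()
  have h2 : Submodule.span ℝ (Set.range (Pool.Agent.H204R3.CM.per (E := fun _ : Unit => K)
      (fun _ => typ Y K e) (fun i : Unit => i))) ≤
      (LinearMap.range ((Ps Y K e).restrictScalars ℝ)).comap ev := by
    refine Submodule.span_le.2 ?_
    rintro _ ⟨w, rfl⟩
    refine ⟨Y.per (e.symm (w ())), ?_⟩
    funext φ
    rw [LinearMap.restrictScalars_apply, Ps_per, LinearEquiv.apply_symm_apply]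
    rfl
  rw [h1] at h2
  intro t
  obtain ⟨s, hs⟩ := h2 (Submodule.mem_top (x := fun _ => t))
  exact ⟨s, hs⟩

/-- The degree of a number field with a CM type. -/
theorem finrank_typ {S : Set (K →+* ℂ)} (hS : IsCMType S) :
    finrank ℚ K = 2 * finrank ℂ (S → ℂ) := by
  classical
  rw [finrank_fintype_fun_eq_card, ← NumberField.Embeddings.card K ℂ]
  have h1 : Fintype.card (K →+* ℂ) = Fintype.card S + Fintype.card (Sᶜ : Set (K →+* ℂ)) :=
    (Fintype.card_congr (Equiv.Set.sumCompl S).symm).trans Fintype.card_sum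
  have h2 : Fintype.card (Sᶜ : Set (K →+* ℂ)) = Fintype.card S := by
    refine Fintype.card_congr ⟨fun φ => ⟨ComplexEmbedding.conjugate φ.1, ?_⟩,
      fun φ => ⟨ComplexEmbedding.conjugate φ.1, ?_⟩, fun φ => ?_, fun φ => ?_⟩
    · by_contra hcon
      exact φ.2 ((hS φ.1).2 hcon)
    · exact (hS φ.1).1 φ.2
    · exact Subtype.ext (star_star φ.1)
    · exact Subtype.ext (star_star φ.1)
  rw [h1, h2]
  ring

include hK in
theorem Ps_bij : Function.Bijective (Ps Y K e) := by
  have h1 : finrank ℂ Y.T = finrank ℂ (typ Y K e → ℂ) := by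
    have h2 := e.finrank_eq
    rw [Y.rank, finrank_typ K (isCMType_typ Y K e hK)] at h2
    omega
  exact ⟨(LinearMap.injective_iff_surjective_of_finrank_eq_finrank h1).2 (Ps_surj Y K e hK),
    Ps_surj Y K e hK⟩

/-- The tangent space is the space of the complex functions on the type. -/
def PsE : Y.T ≃ₗ[ℂ] (typ Y K e → ℂ) := LinearEquiv.ofBijective (Ps Y K e) (Ps_bij Y K e hK)

theorem PsE_per (v : Y.H) (φ : typ Y K e) : PsE Y K e hK (Y.per v) φ = φ.1 (e v) :=
  L_per Y K e φ.1 v

end

end Pool.Agent.N830.HC
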