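import Mathlib
import Pool.Agent.N830.HC.A1

/-!
# The Rosati involution and CM fields
-/

set_option linter.unusedSectionVars false

namespace Pool.Agent.N830.HC

open Module Pool.Agent.Y90 Pool.Agent.R915 NumberField
open Pool.Agent.H204R3.CM (IsCMType span_per)

noncomputable section

/-- The real extension of a rational linear map. -/
theorem exists_ext (Y : AV) (g : Y.H →ₗ[ℚ] Y.H) :
    ∃ R : Y.T →ₗ[ℝ] Y.T, ∀ v, R (Y.per v) = Y.per (g v) := by
  let b := finBasis ℚ Y.H
  obtain ⟨β, hβ⟩ := exists_realBasis Y b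
  refine ⟨β.constr ℝ fun k => Y.per (g (b k)), fun v => ?_⟩
  conv_lhs => rw [← b.sum_repr v]
  conv_rhs => rw [← b.sum_repr v]
  rw [map_sum, map_sum, map_sum, map_sum]
  refine Finset.sum_congr rfl fun k _ => ?_
  rw [per_smul, map_smul, ← hβ, Basis.constr_basis, map_smul, per_smul]

variable (Y : AV) (K : Type) [Field K] [NumberField K] (e : Y.H ≃ₗ[ℚ] K)
  (hK : ∀ a : K, IsHom Y Y (act Y K e a))

include hK in
/-- The Rosati involution. -/
theorem exists_adj (hall : ∀ g : Y.H →ₗ[ℚ] Y.H, IsHom Y Y g → ∃ a : K, g = act Y K e a) (a : K) :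
    ∃ (a' : K) (Ψ : Y.T → Y.T → ℂ), (∀ u', IsLinearMap ℂ fun u => Ψ u u') ∧
    (∀ u u', Ψ u' u = starRingEnd ℂ (Ψ u u')) ∧ (∀ u, u ≠ 0 → 0 < (Ψ u u).re) ∧
      ∀ t s, Ψ (Tn Y K e hK a t) s = Ψ t (Tn Y K e hK a' s) := by
  obtain ⟨E, hE⟩ := Y.pol
  obtain ⟨ω, hω, halt, hnd⟩ := pol_form Y hE
  obtain ⟨Ψ, hΨl, hΨc, hΨp, hE⟩ := hE
  have hadd : ∀ u v w, Ψ (u + v) w = Ψ u w + Ψ v w := fun u v w => (hΨl w).map_add u v
  have hsmul : ∀ (c : ℂ) u w, Ψ (c • u) w = c * Ψ u w := fun c u w => (hΨl w).map_smul c u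
  have hadd' : ∀ u v w, Ψ w (u + v) = Ψ w u + Ψ w v := by
    intro u v w
    rw [hΨc (u + v) w, hadd, map_add, ← hΨc, ← hΨc]
  have hsmul' : ∀ (c : ℂ) u w, Ψ w (c • u) = starRingEnd ℂ c * Ψ w u := by
    intro c u w
    rw [hΨc (c • u) w, hsmul, map_mul, ← hΨc]
  have hrs : ∀ (r : ℝ) u w, Ψ (r • u) w = r * Ψ u w := by
    intro r u w
    rw [show r • u = (r : ℂ) • u from rfl, hsmul]
  have hrs' : ∀ (r : ℝ) u w, Ψ w (r • u) = r * Ψ w u := by
    intro r u w
    rw [hΨc (r • u) w, hrs, map_mul, Complex.conj_ofReal, ← hΨc]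
  -- the real form
  let Bf : Y.T →ₗ[ℝ] Y.T →ₗ[ℝ] ℝ := LinearMap.mk₂ ℝ (fun u v => (Ψ u v).im)
    (fun u v w => by rw [hadd, Complex.add_im]) (fun r u v => by
      rw [hrs, Complex.im_ofReal_mul, smul_eq_mul])
    (fun u v w => by rw [hadd', Complex.add_im]) (fun r u v => by
      rw [hrs', Complex.im_ofReal_mul, smul_eq_mul])
  have hBf : ∀ u v, Bf u v = (Ψ u v).im := fun u v => rfl
  have hBω : ∀ v w, Bf (Y.per v) (Y.per w) = ((ω v w : ℚ) : ℝ) := by
    intro v w
    rw [hBf, hE, hω]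
  have hnd' : ∀ s, (∀ t, Bf t s = 0) → s = 0 := by
    intro s hs
    by_contra hne
    have h2 := hs (Complex.I • s)
    rw [hBf, hsmul] at h2
    have h3 := hΨp _ hne
    rw [Complex.mul_im, Complex.I_re, Complex.I_im, zero_mul, one_mul, zero_add] at h2
    linarith
  have hBI : ∀ t s, Bf t (Complex.I • s) = -Bf (Complex.I • t) s := by
    intro t s
    rw [hBf, hBf, hsmul, hsmul', Complex.conj_I, neg_mul, Complex.neg_im]
  -- the adjoint of the multiplication
  have hinj : Function.Injective ω.flip := by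
    rw [← LinearMap.ker_eq_bot, LinearMap.ker_eq_bot']
    intro u hu
    exact hnd u fun v => congrArg (fun φ => φ v) hu
  let D : Y.H ≃ₗ[ℚ] Module.Dual ℚ Y.H :=
    LinearMap.linearEquivOfInjective ω.flip hinj (Subspace.dual_finrank_eq (K := ℚ) (V := Y.H)).symm
  have hD : ∀ v w, D w v = ω v w := fun v w => rfl
  let g : Y.H →ₗ[ℚ] Y.H :=
    D.symm.toLinearMap.comp ((Module.Dual.transpose (act Y K e a)).comp D.toLinearMap)
  have hg : ∀ v w, ω v (g w) = ω (act Y K e a v) w := by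
    intro v w
    rw [← hD, ← hD]
    change D (D.symm ((Module.Dual.transpose (act Y K e a)) (D w))) v = _
    rw [LinearEquiv.apply_symm_apply]
    rfl
  obtain ⟨R, hR⟩ := exists_ext Y g
  have hadj : ∀ t s, Bf (Tn Y K e hK a t) s = Bf t (R s) := by
    have h1 : Bf.comp ((Tn Y K e hK a).restrictScalars ℝ) = Bf.compl₂ R := by
      refine ext_per Y fun v => ?_
      refine ext_per Y fun w => ?_
      rw [LinearMap.comp_apply, LinearMap.restrictScalars_apply, LinearMap.compl₂_apply, Tn_per,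
        hR, hBω, hBω, hg]
    intro t s
    exact congrArg (fun φ => φ s) (LinearMap.congr_fun h1 t)
  have hRI : ∀ s, R (Complex.I • s) = Complex.I • R s := by
    intro s
    have h1 : ∀ t, Bf t (R (Complex.I • s) - Complex.I • R s) = 0 := by
      intro t
      rw [map_sub, ← hadj, hBI, hBI, ← hadj, LinearMap.map_smul (Tn Y K e hK a)]
      ring
    exact sub_eq_zero.1 (hnd' _ h1)
  let RC : Y.T →ₗ[ℂ] Y.T :=
    { toFun := R
      map_add' := map_add R
      map_smul' := fun c t => by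
        have h1 : ∀ x : Y.T, c • x = c.re • x + c.im • (Complex.I • x) := by
          intro x
          conv_lhs => rw [← Complex.re_add_im c]
          rw [add_smul, mul_smul, Complex.coe_smul, Complex.coe_smul]
        rw [h1 t, map_add, map_smul, map_smul, hRI, RingHom.id_apply, h1 (R t)] }
  obtain ⟨a', ha'⟩ := hall g ⟨RC, hR⟩
  refine ⟨a', Ψ, hΨl, hΨc, hΨp, ?_⟩
  have h2 : ∀ s, Tn Y K e hK a' s = R s := by
    have h3 : (Tn Y K e hK a').restrictScalars ℝ = R := by
      refine ext_per Y fun v => ?_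
      rw [LinearMap.restrictScalars_apply, Tn_per, hR, ha']
    intro s
    exact LinearMap.congr_fun h3 s
  intro t s
  rw [h2]
  have him : ∀ t, (Ψ (Tn Y K e hK a t) s).im = (Ψ t (R s)).im := fun t => hadj t s
  refine Complex.ext ?_ (him t)
  have h4 := him (Complex.I • t)
  rw [map_smul, hsmul, hsmul, Complex.mul_im, Complex.mul_im, Complex.I_re, Complex.I_im, zero_mul,
    zero_mul, zero_add, zero_add, one_mul, one_mul] at h4
  exact h4

/-- Eigenvectors. -/
theorem exists_eigen (φ : typ Y K e) : ∃ t : Y.T, t ≠ 0 ∧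
    ∀ a, Tn Y K e hK a t = φ.1 a • t := by
  classical
  let t := (PsE Y K e hK).symm (Pi.single φ 1)
  refine ⟨t, fun h0 => ?_, fun a => ?_⟩
  · have h1 : (PsE Y K e hK) t = 0 := by rw [h0, map_zero]
    rw [LinearEquiv.apply_symm_apply] at h1
    have h2 := congrFun h1 φ
    rw [Pi.single_eq_same] at h2
    exact one_ne_zero h2
  · apply (PsE Y K e hK).injective
    rw [map_smul]
    funext ψ
    have h1 : ∀ s, PsE Y K e hK s ψ = L Y K e ψ.1 s := fun s => rfl
    rw [Pi.smul_apply, h1, L_Tn, ← h1, LinearEquiv.apply_symm_apply, smul_eq_mul]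
    by_cases h2 : ψ = φ
    · rw [h2]
    · rw [Pi.single_eq_of_ne h2, mul_zero, mul_zero]

include hK in
theorem exists_bar (hall : ∀ g : Y.H →ₗ[ℚ] Y.H, IsHom Y Y g → ∃ a : K, g = act Y K e a) (a : K) :
    ∃ a' : K, ∀ φ : K →+* ℂ, φ a' = starRingEnd ℂ (φ a) := by
  obtain ⟨a', Ψ, hΨl, hΨc, hΨp, h⟩ := exists_adj Y K e hK hall a
  have key : ∀ φ : K →+* ℂ, φ ∈ typ Y K e → φ a' = starRingEnd ℂ (φ a) := by
    intro φ hφ
    obtain ⟨t, ht0, ht⟩ := exists_eigen Y K e hK ⟨φ, hφ⟩
    have h1 := h t t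
    rw [ht, ht] at h1
    have h2 : Ψ (φ a • t) t = φ a * Ψ t t := (hΨl t).map_smul _ _
    have h3 : Ψ t (φ a' • t) = starRingEnd ℂ (φ a') * Ψ t t := by
      rw [hΨc (φ a' • t) t]
      have h4 : Ψ (φ a' • t) t = φ a' * Ψ t t := (hΨl t).map_smul _ _
      rw [h4, map_mul, ← hΨc]
    have h5 : Ψ t t ≠ 0 := by
      intro h0
      have h6 := hΨp t ht0
      rw [h0] at h6
      exact lt_irrefl _ h6
    have h6 : φ a * Ψ t t = starRingEnd ℂ (φ a') * Ψ t t := by
      rw [← h2, ← h3]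
      exact h1
    have h7 := mul_right_cancel₀ h5 h6
    rw [h7, Complex.conj_conj]
  refine ⟨a', fun φ => ?_⟩
  by_cases hφ : φ ∈ typ Y K e
  · exact key φ hφ
  · have h1 : ComplexEmbedding.conjugate φ ∈ typ Y K e := by
      by_contra hcon
      exact hφ ((isCMType_typ Y K e hK φ).2 hcon)
    have h2 := key _ h1
    rw [ComplexEmbedding.conjugate_coe_eq, ComplexEmbedding.conjugate_coe_eq] at h2
    have h3 := congrArg (starRingEnd ℂ) h2
    rw [Complex.conj_conj, Complex.conj_conj] at h3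
    exact h3

/-- A number field with a CM type and with complex conjugates is a CM field. -/
theorem isCM_of_bar {S : Set (K →+* ℂ)} (hS : IsCMType S)
    (hbar : ∀ a : K, ∃ a' : K, ∀ φ : K →+* ℂ, φ a' = starRingEnd ℂ (φ a)) : IsCMField K := by
  choose σ hσ using hbar
  let φ0 : K →+* ℂ := Classical.choice inferInstance
  have hinv : ∀ a, σ (σ a) = a := fun a => φ0.injective (by rw [hσ, hσ, Complex.conj_conj])
  let s : K ≃+* K :=
    { toFun := σ
      invFun := σ
      left_inv := hinv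
      right_inv := hinv
      map_mul' := fun a b => φ0.injective (by rw [hσ, map_mul, map_mul, map_mul, hσ, hσ])
      map_add' := fun a b => φ0.injective (by rw [hσ, map_add, map_add, map_add, hσ, hσ]) }
  let sQ : K ≃ₐ[ℚ] K := AlgEquiv.ofRingEquiv (f := s) fun r => by
    rw [eq_ratCast, map_ratCast]
  have hconj : ∀ φ : K →+* ℂ, ComplexEmbedding.IsConj φ sQ := by
    intro φ
    ext x
    change starRingEnd ℂ (φ x) = φ (σ x)
    rw [hσ]
  have htc : IsTotallyComplex K := by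
    refine ⟨fun w => ?_⟩
    rw [InfinitePlace.isComplex_iff]
    intro hreal
    have h1 : ComplexEmbedding.conjugate w.embedding = w.embedding := hreal
    have h2 := hS w.embedding
    rw [h1] at h2
    exact iff_not_self h2
  exact Pool.Agent.W547.LD.isCM_of_conj K hconj

end

end Pool.Agent.N830.HC
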