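import Pool.Agent.W547.KB.Defs

/-!
# Quadruples of CM types
-/

namespace Pool.Agent.N830.HC

open NumberField Pool.Agent.H204R3.CM Pool.Agent.W547.KB

/-- Let `L` be a CM field with two complex embeddings `j`, `j'`, and let `ι` be an embedding of the
field of `B` into `L`. The CM types `Φ 0`, `Φ 1` of `L` have exactly the embedding `j` in common, the
CM type `Φ 2` and the CM type of `L` which is induced from `B` by `ι` have exactly the complex
conjugate of `j` in common, `Φ 0` contains `j'`, and neither `Φ 0` nor `Φ 1` is the complement of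
`Φ 2`. -/
structure Quad (B : CMPair) {L : Type} [Field L] (j j' : L →+* ℂ) (ι : B.E →+* L)
    (Φ : Fin 3 → Set (L →+* ℂ)) : Prop where
  type : ∀ i, IsCMType (Φ i)
  meet : Φ 0 ∩ Φ 1 = {j}
  meet' : Φ 2 ∩ {φ | φ.comp ι ∈ B.Φ} = {ComplexEmbedding.conjugate j}
  mem : j' ∈ Φ 0
  ne : Φ 0 ≠ (Φ 2)ᶜ
  ne' : Φ 1 ≠ (Φ 2)ᶜ

end Pool.Agent.N830.HC
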