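import Mathlib
import Pool.Agent.R915.H2
import Pool.Agent.N830.HC.Quad

/-!
# Definitions for the reduction of the Hodge conjecture to classes of degree four

The other definitions which are used: abelian varieties `AV` (up to isogeny), homomorphisms `IsHom`
and polarizations `IsPolarization` (`Pool.Agent.Y90.Defs`); Hodge classes `IsHodge` and CM types
`IsCMType` (`Pool.Agent.H204R3.CM.Defs`); CM types `CMPair`, products `CMAV` of abelian varieties of
CM type, the products `threeB B L Φ _` of the abelian varieties of CM types `(L, Φ 0)`, `(L, Φ 1)`,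
`(L, Φ 2)` and of `B`, and their Weil forms `IsWeilForm` (`Pool.Agent.W547.KB.Defs`); systems of
classes `Sys` (`Pool.Agent.R915.Sys`), `Sys.AllHodge`, `IsFactor`, `Unbalanced`
(`Pool.Agent.R915.Stm2`), and the classes `HasCMult`, `QuadMult`, `RealMult`, `FiveDim`, `FullHodge`
of simple abelian varieties (`Pool.Agent.R915.Stm`); `avC`, an abelian variety of CM type as an
abelian variety (`Pool.Agent.R915.H2`).
-/

namespace Pool.Agent.N830.HC

open Module Pool.Agent.Y90 Pool.Agent.R915 NumberField
open Pool.Agent.H204R3.CM (IsHodge IsCMType)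
open Pool.Agent.W547.KB (CMPair CMAV threeB IsWeilForm)

/-- The abelian variety `Y` has complex multiplication by a subfield of `L`: it has a commutative
algebra of endomorphisms, of dimension `2 dim Y` over `ℚ`, with a homomorphism to `L`. -/
def HasCMultIn (Y : AV) (L : Type) [Semiring L] : Prop :=
  ∃ A : Subalgebra ℚ (Module.End ℚ Y.H), (∀ a ∈ A, ∀ b ∈ A, a * b = b * a) ∧
    Module.finrank ℚ A = Module.finrank ℚ Y.H ∧ (∀ a ∈ A, IsHom Y Y a) ∧ Nonempty (A →+* L)

/-- Each simple factor of `X` has dimension at most three, or complex multiplication (of any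
dimension), or belongs to one of the classes `QuadMult`, `RealMult`, `FiveDim`, `FullHodge`. -/
def Allowed (X : AV) : Prop :=
  ∀ Y, IsFactor Y X → finrank ℚ Y.H ≤ 6 ∨ HasCMult Y ∨ QuadMult Y ∨ RealMult Y ∨
    FiveDim Y ∨ FullHodge Y

/-- Each simple factor `Y` of `X` has complex multiplication by a subfield of `L`, or it has no
complex multiplication and has dimension at most three or belongs to one of the classes `QuadMult`,
`RealMult`, `FiveDim`, `FullHodge`, and then each imaginary quadratic field `ℚ(√-d)` which acts on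
`Y` with two different multiplicities on the tangent space is contained in `L`. -/
def AllowedIn (L : Type) [Field L] (X : AV) : Prop :=
  ∀ Y, IsFactor Y X → HasCMultIn Y L ∨ (¬ HasCMult Y ∧ (finrank ℚ Y.H ≤ 6 ∨ QuadMult Y ∨
    RealMult Y ∨ FiveDim Y ∨ FullHodge Y) ∧ ∀ d : ℚ, Unbalanced Y d → ∃ s : L, s * s = -(d : L))

/-- For all `ι` and `Φ` with the property `Quad B j j' ι Φ` (there are finitely many) the system `𝒜`
contains the class `Tr (x₀ ∧ x₁ ∧ x₂ ∧ ι t)` of degree four on the product `A₀ × A₁ × A₂ × B`, where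
`Aᵢ` is the abelian variety of CM type `(L, Φ i)`. Here `x₀`, `x₁`, `x₂`, `t` are the coordinates on
the rational homology `H₁ = L × L × L × E`, with the field `E` of `B`, and `Tr` is the trace from `L`
to `ℚ`. -/
def HasForms (𝒜 : Sys) (B : CMPair) {L : Type} [Field L] [NumberField L] [IsCMField L]
    (j j' : L →+* ℂ) : Prop :=
  ∀ (ι : B.E →+* L) (Φ : Fin 3 → Set (L →+* ℂ)) (h : Quad B j j' ι Φ)
    (hp : ∃ E, IsPolarization (threeB B L Φ h.type).per E)
    (f : (threeB B L Φ h.type).H1 [⋀^Fin 4]→ₗ[ℚ] ℚ), IsWeilForm B L ι Φ h.type 1 f →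
      𝒜.A (avC (threeB B L Φ h.type) hp) (Fin 4) f

end Pool.Agent.N830.HC
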