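import Mathlib
import Pool.Agent.N830.HC.A2
import Pool.Agent.R915.H2
import Pool.Agent.N830.HC.Stm

/-!
# Simple abelian varieties with complex multiplication are of CM type
-/

set_option linter.unusedSectionVars false

namespace Pool.Agent.N830.HC

open Module Pool.Agent.Y90 Pool.Agent.R915 NumberField
open Pool.Agent.H204R3.CM (IsCMType span_per)
open Pool.Agent.W547.KB (CMPair CMAV)

noncomputable section

/-- Nonzero homomorphisms from simple abelian varieties are injective. -/
theorem inj_of_simple {Y : AV} (hs : IsSimple Y) {X : AV} {g : Y.H →ₗ[ℚ] X.H} (hg : IsHom Y X g)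
    (h0 : g ≠ 0) : Function.Injective g := by
  rcases hs.2 _ (isSub_ker hg) with h1 | h1
  · exact LinearMap.ker_eq_bot.1 h1
  · exact absurd (LinearMap.ker_eq_top.1 h1) h0

/-- Differences of homomorphisms. -/
theorem hom_sub {X Y : AV} {f g : X.H →ₗ[ℚ] Y.H} (hf : IsHom X Y f) (hg : IsHom X Y g) :
    IsHom X Y (f - g) := by
  obtain ⟨Ψ, hΨ⟩ := hf
  obtain ⟨Φ, hΦ⟩ := hg
  refine ⟨Ψ - Φ, fun v => ?_⟩
  rw [LinearMap.sub_apply, hΨ, hΦ, LinearMap.sub_apply, map_sub]

theorem exists_field_aux (Y : AV) (K : Type) [Field K] [CharZero K] {T : Type} [Semiring T]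
    (η : K →+* T) (ρ : K →+* Module.End ℚ Y.H) (hρ : ∀ a, IsHom Y Y (ρ a)) (y : Y.H)
    (hbij : Function.Bijective fun a => ρ a y) (hall : ∀ g, IsHom Y Y g → ∃ a, g = ρ a) :
    ∃ (K : Type) (_ : Field K) (_ : NumberField K) (e : Y.H ≃ₗ[ℚ] K) (_ : K →+* T),
      (∀ a : K, IsHom Y Y (act Y K e a)) ∧
        ∀ g : Y.H →ₗ[ℚ] Y.H, IsHom Y Y g → ∃ a : K, g = act Y K e a := by
  let f : K →+ Y.H :=
    { toFun := fun a => ρ a y
      map_zero' := by rw [map_zero]; rfl
      map_add' := fun a b => by rw [map_add]; rfl }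
  let F : K →ₗ[ℚ] Y.H :=
    { toFun := f
      map_add' := map_add f
      map_smul' := fun c x => map_rat_smul f c x }
  have hfd : FiniteDimensional ℚ K := FiniteDimensional.of_injective F hbij.1
  have hnf : NumberField K := ⟨⟩
  let e0 : K ≃ₗ[ℚ] Y.H := LinearEquiv.ofBijective F hbij
  have he0 : ∀ a, e0 a = ρ a y := fun a => rfl
  have hact : ∀ a, act Y K e0.symm a = ρ a := by
    intro a
    refine LinearMap.ext fun v => ?_
    rw [act_apply, LinearEquiv.symm_symm, he0, map_mul]
    change ρ a (ρ (e0.symm v) y) = _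
    rw [← he0, LinearEquiv.apply_symm_apply]
  refine ⟨K, inferInstance, hnf, e0.symm, η, fun a => ?_, fun g hg => ?_⟩
  · rw [hact]
    exact hρ a
  · obtain ⟨a, ha⟩ := hall g hg
    exact ⟨a, by rw [hact, ha]⟩

/-- The field of complex multiplications. -/
theorem exists_field (Y : AV) (hs : IsSimple Y) (A : Subalgebra ℚ (Module.End ℚ Y.H))
    (hcomm : ∀ a ∈ A, ∀ b ∈ A, a * b = b * a) (hfin : finrank ℚ A = finrank ℚ Y.H)
    (hhom : ∀ a ∈ A, IsHom Y Y a) {T : Type} [Semiring T] (η : A →+* T) :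
    ∃ (K : Type) (_ : Field K) (_ : NumberField K) (e : Y.H ≃ₗ[ℚ] K) (_ : K →+* T),
      (∀ a : K, IsHom Y Y (act Y K e a)) ∧
        ∀ g : Y.H →ₗ[ℚ] Y.H, IsHom Y Y g → ∃ a : K, g = act Y K e a := by
  obtain ⟨⟨y, hy⟩, -⟩ := id hs
  have hinj : ∀ a ∈ A, a ≠ 0 → Function.Injective a := fun a ha h0 =>
    inj_of_simple hs (hhom a ha) h0
  have hfdA : FiniteDimensional ℚ A :=
    inferInstanceAs (FiniteDimensional ℚ (Subalgebra.toSubmodule A))
  let ev : A →ₗ[ℚ] Y.H :=
    { toFun := fun a => (a : Module.End ℚ Y.H) y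
      map_add' := fun a b => rfl
      map_smul' := fun c a => rfl }
  have hev : Function.Injective ev := by
    rw [injective_iff_map_eq_zero]
    intro a ha
    by_contra h0
    have h1 : (a : Module.End ℚ Y.H) ≠ 0 := fun h2 => h0 (Subtype.ext h2)
    refine hy (hinj a.1 a.2 h1 ?_)
    rw [map_zero]
    exact ha
  have hbij : Function.Bijective ev :=
    ⟨hev, (LinearMap.injective_iff_surjective_of_finrank_eq_finrank hfin).1 hev⟩
  have hall : ∀ g, IsHom Y Y g → ∃ a : A, g = a := by
    intro g hg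
    obtain ⟨a, ha⟩ := hbij.2 (g y)
    refine ⟨a, ?_⟩
    by_contra hne
    refine hy (inj_of_simple hs (hom_sub hg (hhom a a.2)) (sub_ne_zero.2 hne) ?_)
    rw [map_zero, LinearMap.sub_apply, sub_eq_zero]
    exact ha.symm
  let iR : CommRing A := { (inferInstance : Ring A) with
    mul_comm := fun a b => Subtype.ext (hcomm a a.2 b b.2) }
  have hnt : Nontrivial A := by
    refine ⟨⟨0, 1, fun h0 => ?_⟩⟩
    have h1 : ev 0 = ev 1 := congrArg ev h0
    rw [map_zero] at h1
    exact hy h1.symm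
  have hnz : NoZeroDivisors A := by
    refine ⟨fun {a b} hab => ?_⟩
    by_contra hcon
    push Not at hcon
    have h1 : (a : Module.End ℚ Y.H) ≠ 0 := fun h2 => hcon.1 (Subtype.ext h2)
    refine hcon.2 (hev ?_)
    rw [map_zero]
    refine hinj a.1 a.2 h1 ?_
    rw [map_zero]
    exact congrArg (fun c : A => (c : Module.End ℚ Y.H) y) hab
  have hdom : IsDomain A := NoZeroDivisors.to_isDomain A
  let iF : Field A := fieldOfFiniteDimensional ℚ A
  have hcz : CharZero A := algebraRat.charZero A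
  let ρ : A →+* Module.End ℚ Y.H :=
    { toFun := Subtype.val
      map_one' := rfl
      map_mul' := fun _ _ => rfl
      map_zero' := rfl
      map_add' := fun _ _ => rfl }
  let η' : A →+* T :=
    { toFun := η
      map_one' := map_one η
      map_mul' := fun a b => map_mul η a b
      map_zero' := map_zero η
      map_add' := fun a b => map_add η a b }
  exact exists_field_aux Y A η' ρ (fun a => hhom a a.2) y hbij hall

theorem HasCMultIn.cm {Y : AV} {L : Type} [Semiring L] (h : HasCMultIn Y L) : HasCMult Y := by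
  obtain ⟨A, h1, h2, h3, -⟩ := h
  exact ⟨A, h1, h2, h3⟩

theorem HasCMultIn.map {Y : AV} {L L' : Type} [Semiring L] [Semiring L'] (h : HasCMultIn Y L)
    (f : L →+* L') : HasCMultIn Y L' := by
  obtain ⟨A, h1, h2, h3, ⟨η⟩⟩ := h
  exact ⟨A, h1, h2, h3, ⟨f.comp η⟩⟩

/-- Simple abelian varieties with complex multiplication are of CM type. -/
theorem exists_typeK (Y : AV) (hs : IsSimple Y) {L : Type} [Semiring L] (hcm : HasCMultIn Y L) :
    ∃ (P : CMPair) (e : Y.H ≃ₗ[ℚ] P.E) (_ : P.E →+* L), IsOfType Y P ∧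
      ∀ g : Y.H →ₗ[ℚ] Y.H, IsHom Y Y g → ∃ a : P.E, g = act Y P.E e a := by
  obtain ⟨A, hcomm, hfin, hhom, ⟨η⟩⟩ := hcm
  obtain ⟨K, hF, hN, e, f, hK, hall⟩ := exists_field Y hs A hcomm hfin hhom η
  have h1 := isCMType_typ Y K e hK
  have h2 : IsCMField K := isCM_of_bar K h1 (exists_bar Y K e hK hall)
  exact ⟨⟨K, typ Y K e, h1⟩, e, f, ⟨e, PsE Y K e hK, fun v φ => PsE_per Y K e hK v φ⟩, hall⟩

theorem exists_type (Y : AV) (hs : IsSimple Y) (hcm : HasCMult Y) :
    ∃ P : CMPair, IsOfType Y P := by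
  obtain ⟨A, h1, h2, h3⟩ := hcm
  obtain ⟨P, -, -, h4, -⟩ := exists_typeK Y hs (L := A) ⟨A, h1, h2, h3, ⟨RingHom.id A⟩⟩
  exact ⟨P, h4⟩

theorem exists_typeL (Y : AV) (hs : IsSimple Y) {L : Type} [Semiring L] (hcm : HasCMultIn Y L) :
    ∃ P : CMPair, IsOfType Y P ∧ Nonempty (P.E →+* L) := by
  obtain ⟨P, -, f, h4, -⟩ := exists_typeK Y hs hcm
  exact ⟨P, h4, ⟨f⟩⟩

/-- Embeddings of quadratic fields. -/
theorem exists_quad {K L : Type} [Field K] [NumberField K] [Field L] [NumberField L]
    (hK : finrank ℚ K = 2) {d : ℚ} (hd : 0 < d) {a : K} (ha : a * a = -(d : K)) {s : L}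
    (hs : s * s = -(d : L)) : Nonempty (K →+* L) := by
  let ψ : K →+* ℂ := Classical.choice inferInstance
  let j : L →+* ℂ := Classical.choice inferInstance
  have h1 : ψ a = j s ∨ ψ a = -j s := by
    have h2 : (ψ a - j s) * (ψ a + j s) = 0 := by
      have h3 : ψ a * ψ a = -(d : ℂ) := by rw [← map_mul, ha, map_neg, map_ratCast]
      have h4 : j s * j s = -(d : ℂ) := by rw [← map_mul, hs, map_neg, map_ratCast]
      linear_combination h3 - h4
    rcases mul_eq_zero.1 h2 with h3 | h3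
    · exact Or.inl (sub_eq_zero.1 h3)
    · exact Or.inr (eq_neg_of_add_eq_zero_left h3)
  have hlin : LinearIndependent ℚ ![(1 : K), a] := by
    rw [LinearIndependent.pair_iff]
    intro p q hpq
    rw [Algebra.smul_def, Algebra.smul_def, mul_one, eq_ratCast, eq_ratCast] at hpq
    have h2 : (q : K) * (q : K) * -(d : K) = (p : K) * (p : K) := by
      rw [← ha]
      linear_combination (q * a - p) * hpq
    have h3 : q * q * -d = p * p := by exact_mod_cast h2
    have h4 : p * p = 0 := le_antisymm (by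
      rw [← h3]
      nlinarith [mul_self_nonneg q]) (mul_self_nonneg p)
    have h5 : p = 0 := mul_self_eq_zero.1 h4
    rw [h4] at h3
    have h6 : q * q = 0 := by
      rcases mul_eq_zero.1 h3 with h7 | h7
      · exact h7
      · exact absurd (neg_eq_zero.1 h7) hd.ne'
    exact ⟨h5, mul_self_eq_zero.1 h6⟩
  have hspan : Submodule.span ℚ (Set.range ![(1 : K), a]) = ⊤ :=
    hlin.span_eq_top_of_card_eq_finrank' (by rw [Fintype.card_fin, hK])
  have hr : ∀ x : K, ψ x ∈ j.fieldRange := by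
    intro x
    have hx : x ∈ Submodule.span ℚ (Set.range ![(1 : K), a]) := by
      rw [hspan]
      trivial
    induction hx using Submodule.span_induction with
    | mem x hx =>
      obtain ⟨i, rfl⟩ := hx
      fin_cases i
      · change ψ 1 ∈ _
        rw [map_one]
        exact one_mem _
      · change ψ a ∈ _
        rcases h1 with h1 | h1
        · exact ⟨s, h1.symm⟩
        · exact ⟨-s, by rw [h1, map_neg]⟩
    | zero =>
      rw [map_zero]
      exact zero_mem _
    | add x y _ _ hx hy =>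
      rw [map_add]
      exact add_mem hx hy
    | smul c x _ hx =>
      rw [Algebra.smul_def, map_mul, eq_ratCast, map_ratCast]
      exact mul_mem (SubfieldClass.ratCast_mem _ c) hx
  exact ⟨(j.rangeRestrictFieldEquiv.symm.toRingHom).comp (ψ.codRestrict j.fieldRange hr)⟩

end

end Pool.Agent.N830.HC
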