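import Mathlib
import Pool.Agent.R915.H2
import Pool.Agent.TH117.PO.Polar
import Pool.Agent.TH117.PO.Herm

/-!
# Abelian varieties of CM type as abelian varieties
-/

namespace Pool.Agent.N830.HC

open Pool.Agent.Y90 Pool.Agent.R915
open Pool.Agent.W547.KB (CMAV)

/-- Abelian varieties of CM type have polarizations. -/
theorem polar (X : CMAV) : ∃ E, IsPolarization X.per E := by
  obtain ⟨α, hα⟩ := Pool.Agent.TH117.PO.exists_polar X
  exact ⟨_, Pool.Agent.TH117.PO.isPolarization hα⟩

/-- The abelian variety of CM type `X`. -/
noncomputable abbrev av (X : CMAV) : AV := avC X (polar X)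

end Pool.Agent.N830.HC
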