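import Mathlib
import Pool.Agent.N830.HC.A3
import Pool.Agent.N830.HC.Polar
import Pool.Agent.W547.KB.Main
import Pool.Agent.N830.HC.K.Final

/-!
# The reduction to classes of degree four on abelian varieties of CM type
-/

set_option linter.unusedSectionVars false

namespace Pool.Agent.N830.HC

open Module Pool.Agent.Y90 Pool.Agent.R915 NumberField Matrix
open Pool.Agent.TH504.CB (isHodge_comp)
open Pool.Agent.H204R3.CM (IsHodge IsCMType)
open Pool.Agent.W547.KB (CMPair CMAV three single threeB IsWeilForm Gen)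

noncomputable section

/-- The element `(u, u')` of the tangent space of the product. -/
def tpair (X Y : CMAV) (u : X.Tan) (u' : Y.Tan) : (X.prod Y).Tan :=
  fun s => Sum.rec (motive := fun s => ((X.prod Y).factor s).Φ → ℂ) (fun i => u i) (fun i => u' i) s

theorem tpair_add (X Y : CMAV) (u v : X.Tan) (u' v' : Y.Tan) :
    tpair X Y (u + v) (u' + v') = tpair X Y u u' + tpair X Y v v' := by
  funext s
  rcases s with s | s <;> rfl

theorem tpair_smul (X Y : CMAV) (c : ℂ) (u : X.Tan) (u' : Y.Tan) :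
    tpair X Y (c • u) (c • u') = c • tpair X Y u u' := by
  funext s
  rcases s with s | s <;> rfl

theorem pair_add (X Y : CMAV) (u v : X.H1) (u' v' : Y.H1) :
    X.pair Y (u + v) (u' + v') = X.pair Y u u' + X.pair Y v v' := by
  funext s
  rcases s with s | s <;> rfl

theorem pair_smul (X Y : CMAV) (c : ℚ) (u : X.H1) (u' : Y.H1) :
    X.pair Y (c • u) (c • u') = c • X.pair Y u u' := by
  funext s
  rcases s with s | s <;> rfl

theorem per_pair (X Y : CMAV) (u : X.H1) (u' : Y.H1) :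
    (X.prod Y).per (X.pair Y u u') = tpair X Y (X.per u) (Y.per u') := by
  funext s
  rcases s with s | s <;> rfl

/-- The first inclusion. -/
def inlH (X Y : CMAV) : X.H1 →ₗ[ℚ] (X.prod Y).H1 where
  toFun w := X.pair Y w 0
  map_add' v w := by rw [← pair_add, add_zero]
  map_smul' c v := by rw [RingHom.id_apply, ← pair_smul, smul_zero]

/-- The second inclusion. -/
def inrH (X Y : CMAV) : Y.H1 →ₗ[ℚ] (X.prod Y).H1 where
  toFun w := X.pair Y 0 w
  map_add' v w := by rw [← pair_add, add_zero]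
  map_smul' c v := by rw [RingHom.id_apply, ← pair_smul, smul_zero]

theorem inlH_hom (X Y : CMAV) : IsHom (av X) (av (X.prod Y)) (inlH X Y) := by
  refine ⟨{ toFun := fun (u : X.Tan) => tpair X Y u 0
            map_add' := fun (u v : X.Tan) => ?_
            map_smul' := fun c (u : X.Tan) => ?_ }, fun (v : X.H1) => ?_⟩
  · refine Eq.trans ?_ (tpair_add X Y u v 0 0)
    rw [add_zero]
    rfl
  · refine Eq.trans ?_ (tpair_smul X Y c u 0)
    rw [smul_zero]
    rfl
  · refine Eq.symm ((per_pair X Y v 0).trans ?_)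
    rw [map_zero]
    rfl

theorem inrH_hom (X Y : CMAV) : IsHom (av Y) (av (X.prod Y)) (inrH X Y) := by
  refine ⟨{ toFun := fun (u : Y.Tan) => tpair X Y 0 u
            map_add' := fun (u v : Y.Tan) => ?_
            map_smul' := fun c (u : Y.Tan) => ?_ }, fun (v : Y.H1) => ?_⟩
  · refine Eq.trans ?_ (tpair_add X Y 0 0 u v)
    rw [add_zero]
    rfl
  · refine Eq.trans ?_ (tpair_smul X Y c 0 u)
    rw [smul_zero]
    rfl
  · refine Eq.symm ((per_pair X Y 0 v).trans ?_)
    rw [map_zero]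
    rfl

theorem inl_add_inr (X Y : CMAV) (w : X.H1 × Y.H1) :
    inlH X Y w.1 + inrH X Y w.2 = X.pair Y w.1 w.2 := by
  change X.pair Y w.1 0 + X.pair Y 0 w.2 = _
  rw [← pair_add, add_zero, zero_add]

theorem pair_bij (X Y : CMAV) :
    Function.Bijective fun w : X.H1 × Y.H1 => inlH X Y w.1 + inrH X Y w.2 := by
  refine ⟨fun v w hvw => ?_, fun x => ⟨(fun k => x (Sum.inl k), fun k => x (Sum.inr k)), ?_⟩⟩
  · have h1 : X.pair Y v.1 v.2 = X.pair Y w.1 w.2 := by
      rw [← inl_add_inr, ← inl_add_inr]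
      exact hvw
    refine Prod.ext ?_ ?_
    · funext k
      exact congrFun h1 (Sum.inl k)
    · funext k
      exact congrFun h1 (Sum.inr k)
  · refine (inl_add_inr X Y _).trans ?_
    funext s
    rcases s with s | s <;> rfl

section

variable {L : Type} [Field L] [NumberField L] [IsCMField L] [IsGalois ℚ L] {j j' : L →+* ℂ}

/-- The generated classes belong to the system. -/
theorem gen_mem (𝒜 : Sys) {B : CMPair} (hB : HasForms 𝒜 B j j') {X : CMAV} {κ : Type}
    {f : X.H1 [⋀^κ]→ₗ[ℚ] ℚ} (hf : K.GenL B j j' X κ f) : 𝒜.A (av X) κ f := by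
  induction hf with
  | @unit X κ _ f => exact 𝒜.unit (X := av X) f
  | @divisor X κ hκ f hf => exact 𝒜.divisor (X := av X) hκ f hf
  | weil ι Φ h f hf => exact hB ι Φ h (polar _) f hf
  | zero X κ => exact 𝒜.zero (av X) κ
  | @add X κ f g _ _ ihf ihg => exact 𝒜.add (X := av X) f g ihf ihg
  | @smul X κ a f _ ih => exact 𝒜.smul (X := av X) a f ih
  | @reindex X κ κ' e f _ ih => exact 𝒜.reindex (X := av X) e f ih
  | @cup X κ κ' _ _ _ _ f g _ _ h hh ihf ihg => exact 𝒜.cup (X := av X) f g ihf ihg h hh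
  | @pull X Y κ h hh f _ ih => exact 𝒜.pull (X := av X) (Y := av Y) h hh f ih
  | @push X Y κ κ' b f _ g hg ih =>
    exact 𝒜.push (X := av X) (Y := av Y) (P := av (X.prod Y)) (inlH X Y) (inlH_hom X Y)
      (inrH X Y) (inrH_hom X Y) (pair_bij X Y) b f ih g hg

/-- Hodge classes on abelian varieties isogenous to products of abelian varieties of CM type. -/
theorem prod_cm (𝒜 : Sys) {Q : Type} [Fintype Q] [DecidableEq Q]
    {a : Q → ℕ} {Z' : ∀ q, Matrix (Fin (a q)) (Fin (a q)) ℂ}
    (h' : ∀ q, Pool.Agent.Y90.PM (Z' q)) (p : Q → CMPair)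
    (hq : ∀ q, IsOfType (AVZ (h' q)) (p q)) (hp : 𝒜.AllHodge (av ⟨Q, p⟩)) :
    𝒜.AllHodge (AVQ h') := by
  choose e Ψ hΨ using hq
  intro κ _ f hf
  let X : CMAV := ⟨Q, p⟩
  -- the isomorphism of the homology
  let ε : (BQ a → ℚ) ≃ₗ[ℚ] X.H1 :=
    { toFun := fun w q => e q (cQ q w)
      invFun := fun x y => (e y.1).symm (x y.1) y.2
      left_inv := fun w => by
        funext y
        change (e y.1).symm (e y.1 (cQ y.1 w)) y.2 = w y
        rw [LinearEquiv.symm_apply_apply]
        rfl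
      right_inv := fun x => by
        funext q
        change e q (fun i => (e q).symm (x q) i) = x q
        exact (e q).apply_symm_apply (x q)
      map_add' := fun v w => by
        funext q
        exact map_add (e q) (cQ q v) (cQ q w)
      map_smul' := fun c v => by
        funext q
        exact map_smul (e q) c (cQ q v) }
  let Θ : (AVQ h').T ≃ₗ[ℂ] X.Tan := LinearEquiv.piCongrRight Ψ
  have hΘ : ∀ v, Θ ((AVQ h').per v) = X.per (ε v) := by
    intro v
    funext q φ
    exact hΨ q (cQ q v) φ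
  have hΘs : ∀ x, Θ.symm (X.per x) = (AVQ h').per (ε.symm x) := by
    intro x
    rw [LinearEquiv.symm_apply_eq, hΘ, ε.apply_symm_apply]
  have h1 : IsHodge X.per (f.compLinearMap ε.symm.toLinearMap) :=
    isHodge_comp ε.symm.toLinearMap Θ.symm.toLinearMap hΘs hf
  have h3 := hp κ (f.compLinearMap ε.symm.toLinearMap) h1
  have h5 := 𝒜.pull (X := AVQ h') (Y := av X) ε.toLinearMap ⟨Θ.toLinearMap, hΘ⟩ _ h3
  have h4 : (f.compLinearMap ε.symm.toLinearMap).compLinearMap ε.toLinearMap = f := by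
    ext v
    rw [AlternatingMap.compLinearMap_apply, AlternatingMap.compLinearMap_apply]
    congr 1
    funext k
    exact ε.symm_apply_apply (v k)
  have h6 : 𝒜.A (AVQ h') κ
      ((f.compLinearMap ε.symm.toLinearMap).compLinearMap ε.toLinearMap) := h5
  exact h4 ▸ h6

/-- Hodge classes on abelian varieties of CM type with fields contained in `L`. -/
theorem all_cm (𝒜 : Sys) {B : CMPair} (ι : B.E →+* L) (hj' : j' ≠ ComplexEmbedding.conjugate j)
    (hB : HasForms 𝒜 B j j') (X : CMAV) (hX : ∀ i, Nonempty ((X.factor i).E →+* L)) :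
    𝒜.AllHodge (av X) :=
  fun _ _ f hf => gen_mem 𝒜 hB (K.gen_of_hodge B hj' ι X hX f hf)

end

/-- The local conditions. -/
theorem lc_of {a : ℕ} {Z' : Matrix (Fin a) (Fin a) ℂ} (h' : Pool.Agent.Y90.PM Z')
    (hsim : IsSimple (AVZ h')) (ha : 0 < a) (hcm : ¬ HasCMult (AVZ h'))
    (k : finrank ℚ (AVZ h').H ≤ 6 ∨ QuadMult (AVZ h') ∨ RealMult (AVZ h') ∨ FiveDim (AVZ h') ∨
      FullHodge (AVZ h')) : ∀ U, IrS (LZ Z') U → LC h' U := by
  intro U hU
  rcases k with k | k | k | k | k
  · exact SmallDim.lc h' hsim ha ⟨k, fun h1 => absurd h1 hcm⟩ hU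
  · exact k.lc h' hU
  · exact k.lc h' hsim ha hU
  · exact k.lc h' hsim ha hU
  · exact k.lc h' hsim ha hU

/-- Elliptic curves with complex multiplication by a quadratic subfield of `L`. -/
theorem exists_type_quad (Y : AV) (hs : IsSimple Y) (hcm : HasCMult Y) (hdim : finrank ℚ Y.H = 2)
    {d : ℚ} (hU : Unbalanced Y d) {L : Type} [Field L] [NumberField L] {s : L}
    (hsd : s * s = -(d : L)) : ∃ P : CMPair, IsOfType Y P ∧ Nonempty (P.E →+* L) := by
  obtain ⟨A, h1, h2, h3⟩ := hcm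
  obtain ⟨P, e, -, h4, hall⟩ := exists_typeK Y hs (L := A) ⟨A, h1, h2, h3, ⟨RingHom.id A⟩⟩
  obtain ⟨hd, h, Ψ, -, hΨ, hsq, -⟩ := hU
  obtain ⟨a, ha⟩ := hall h ⟨Ψ, hΨ⟩
  have h5 : a * a = -(d : P.E) := by
    have h6 := hsq (e.symm 1)
    rw [ha, act_apply, act_apply, LinearEquiv.apply_symm_apply, LinearEquiv.apply_symm_apply,
      mul_one, ← map_smul, ← map_neg] at h6
    have h7 := e.symm.injective h6
    rw [h7, Algebra.smul_def, mul_one, eq_ratCast]
  refine ⟨P, h4, exists_quad (K := P.E) (L := L) ?_ hd h5 hsd⟩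
  rw [← e.finrank_eq, hdim]

/-- The reduction to classes of degree four on abelian varieties with complex multiplication by a
given field. -/
theorem all_of_forms (𝒜 : Sys) {B : CMPair} {L : Type} [Field L] [NumberField L] [IsCMField L]
    [IsGalois ℚ L] {j j' : L →+* ℂ} (ι : B.E →+* L) (hj' : j' ≠ ComplexEmbedding.conjugate j)
    (hB : HasForms 𝒜 B j j') (X : AV) (hX : AllowedIn L X) : 𝒜.AllHodge X := by
  refine main_cm 𝒜 X (fun a Z' h' i hi hinj hsim ha => ?_) fun Q _ _ a Z' h' hc => ?_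
  · rcases hX (AVZ h') ⟨hsim, i, hi, hinj⟩ with k | ⟨hcm, k, -⟩
    · exact Or.inr k.cm
    · exact Or.inl ⟨hcm, lc_of h' hsim ha hcm k⟩
  · have key : ∀ q, ∃ P : CMPair, IsOfType (AVZ (h' q)) P ∧ Nonempty (P.E →+* L) := by
      intro q
      obtain ⟨h3, h4, h5 | ⟨h5, d, h6, Y', hY', hn, h7⟩⟩ := hc q
      · rcases hX _ h5 with k | ⟨k, -⟩
        · exact exists_typeL _ h3 k
        · exact absurd h4 k
      · rcases hX _ hY' with k | ⟨-, -, k⟩
        · exact absurd k.cm hn
        · obtain ⟨s, hs⟩ := k d h7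
          exact exists_type_quad _ h3 h4 h5 h6 hs
    choose p hp1 hp2 using key
    exact prod_cm 𝒜 h' p hp1 (all_cm 𝒜 ι hj' hB ⟨Q, p⟩ hp2)

/-- The reduction to classes of degree four on abelian varieties of CM type. -/
theorem all_of_forms' (𝒜 : Sys) {B : CMPair}
    (hB : ∀ (L₀ : Type) [Field L₀] [NumberField L₀] [IsCMField L₀] [IsGalois ℚ L₀],
      ∃ (L : Type) (_ : Field L) (_ : NumberField L) (_ : IsCMField L) (_ : IsGalois ℚ L)
        (_ : L₀ →+* L) (j j' : L →+* ℂ), j' ≠ ComplexEmbedding.conjugate j ∧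
          HasForms 𝒜 B j j') (X : AV) (hX : Allowed X) :
    𝒜.AllHodge X := by
  refine main_cm 𝒜 X (fun a Z' h' i hi hinj hsim ha => ?_) fun Q _ _ a Z' h' hc => ?_
  · by_cases hcm : HasCMult (AVZ h')
    · exact Or.inr hcm
    refine Or.inl ⟨hcm, lc_of h' hsim ha hcm ?_⟩
    rcases hX (AVZ h') ⟨hsim, i, hi, hinj⟩ with k | k | k
    · exact Or.inl k
    · exact absurd k hcm
    · exact Or.inr k
  · choose p hp using fun q => exists_type _ (hc q).1 (hc q).2.1
    refine prod_cm 𝒜 h' p hp ?_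
    let X' : CMAV := ⟨Q, p⟩
    have hne : Nonempty (X'.prod (single B)).I := ⟨Sum.inr ()⟩
    obtain ⟨L₀, _, _, _, _, j₀, hj⟩ := Pool.Agent.W547.KB.exists_cm (X'.prod (single B))
    obtain ⟨L, _, _, _, _, f, j, j', hj', hf⟩ := hB L₀
    obtain ⟨ι, -⟩ := hj (Sum.inr ()) (Classical.choice inferInstance)
    refine all_cm 𝒜 (f.comp ι) hj' hf X' fun q => ?_
    obtain ⟨φ, -⟩ := hj (Sum.inl q) (Classical.choice inferInstance)
    exact ⟨f.comp φ⟩

end

end Pool.Agent.N830.HC
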