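import Mathlib
import Pool.Agent.N830.HC.A3
import Pool.Agent.N830.HC.B1

/-!
# Factors of abelian varieties of CM type have complex multiplication
-/

set_option linter.unusedSectionVars false

namespace Pool.Agent.N830.HC

open Module Pool.Agent.Y90 Pool.Agent.R915 NumberField
open Pool.Agent.H204R3.CM (IsHodge IsCMType)
open Pool.Agent.W547.KB (CMPair CMAV three single threeB IsWeilForm Gen)

noncomputable section

/-- Real combinations and complex scalars. -/
theorem smul_eq_re_im {T : Type} [AddCommGroup T] [Module ℂ T] (c : ℂ) (x : T) :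
    c • x = c.re • x + c.im • (Complex.I • x) := by
  conv_lhs => rw [← Complex.re_add_im c]
  rw [add_smul, mul_smul, Complex.coe_smul, Complex.coe_smul]

/-- A criterion for complex multiplication: the complex structure is a real combination of elements
of a commutative algebra. -/
theorem cm_criterion (Y : AV) (hs : IsSimple Y) (S : Subalgebra ℚ (Module.End ℚ Y.H))
    (hcomm : ∀ a ∈ S, ∀ b ∈ S, a * b = b * a) {m : ℕ} (θ : Fin m → ℝ)
    (s : Fin m → Module.End ℚ Y.H) (hsS : ∀ l, s l ∈ S)
    (hJ : ∀ y, Complex.I • Y.per y = ∑ l, θ l • Y.per (s l y)) :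
    Module.finrank ℚ S = Module.finrank ℚ Y.H ∧ ∀ a ∈ S, IsHom Y Y a := by
  have hhom : ∀ a ∈ S, IsHom Y Y a := by
    intro a ha
    obtain ⟨R, hR⟩ := exists_ext Y a
    let J : Y.T →ₗ[ℝ] Y.T := (Complex.I • (LinearMap.id : Y.T →ₗ[ℂ] Y.T)).restrictScalars ℝ
    have hJ' : ∀ t, J t = Complex.I • t := fun t => rfl
    have h1 : R.comp J = J.comp R := by
      refine ext_per Y fun v => ?_
      rw [LinearMap.comp_apply, LinearMap.comp_apply, hJ', hJ', hR, hJ, hJ, map_sum]
      refine Finset.sum_congr rfl fun l _ => ?_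
      rw [map_smul, hR]
      congr 2
      exact congrArg (fun u : Module.End ℚ Y.H => u v) (hcomm a ha (s l) (hsS l))
    have h2 : ∀ t, R (Complex.I • t) = Complex.I • R t := fun t => LinearMap.congr_fun h1 t
    refine ⟨{ toFun := R
              map_add' := map_add R
              map_smul' := fun c t => ?_ }, hR⟩
    rw [smul_eq_re_im c t, map_add, map_smul, map_smul, h2, RingHom.id_apply, smul_eq_re_im c (R t)]
  refine ⟨?_, hhom⟩
  obtain ⟨⟨y, hy⟩, hsub⟩ := id hs
  let ev : S →ₗ[ℚ] Y.H :=
    { toFun := fun a => (a : Module.End ℚ Y.H) y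
      map_add' := fun a b => rfl
      map_smul' := fun c a => rfl }
  have hev : Function.Injective ev := by
    rw [injective_iff_map_eq_zero]
    intro a ha
    by_contra h0
    have h1 : (a : Module.End ℚ Y.H) ≠ 0 := fun h2 => h0 (Subtype.ext h2)
    refine hy (inj_of_simple hs (hhom a a.2) h1 ?_)
    rw [map_zero]
    exact ha
  have hI : IsSub Y (LinearMap.range ev) := by
    intro x hx
    induction hx using Submodule.span_induction with
    | mem x hx =>
      obtain ⟨_, ⟨a, rfl⟩, rfl⟩ := hx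
      rw [hJ]
      refine Submodule.sum_mem _ fun l _ => Submodule.smul_mem _ _ (Submodule.subset_span ?_)
      exact ⟨_, ⟨⟨s l * a.1, S.mul_mem (hsS l) a.2⟩, rfl⟩, rfl⟩
    | zero =>
      rw [smul_zero]
      exact Submodule.zero_mem _
    | add x z _ _ hx hz =>
      rw [smul_add]
      exact Submodule.add_mem _ hx hz
    | smul c x _ hx =>
      rw [smul_comm]
      exact Submodule.smul_mem _ _ hx
  have hsurj : Function.Surjective ev := by
    rcases hsub _ hI with h1 | h1
    · exfalso
      have h2 : ev 1 ∈ LinearMap.range ev := ⟨1, rfl⟩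
      rw [h1, Submodule.mem_bot] at h2
      exact hy h2
    · exact LinearMap.range_eq_top.1 h1
  exact (LinearEquiv.ofBijective ev ⟨hev, hsurj⟩).finrank_eq

/-- A real extension of a rational linear form. -/
theorem exists_extQ (Y : AV) (g : Y.H →ₗ[ℚ] ℚ) :
    ∃ R : Y.T →ₗ[ℝ] ℝ, ∀ v, R (Y.per v) = (g v : ℝ) := by
  let b := finBasis ℚ Y.H
  obtain ⟨β, hβ⟩ := exists_realBasis Y b
  refine ⟨β.constr ℝ fun k => (g (b k) : ℝ), fun v => ?_⟩
  conv_lhs => rw [← b.sum_repr v]
  conv_rhs => rw [← b.sum_repr v]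
  rw [map_sum, map_sum, map_sum, Rat.cast_sum]
  refine Finset.sum_congr rfl fun k _ => ?_
  rw [per_smul, map_smul, ← hβ, Basis.constr_basis, map_smul, smul_eq_mul, smul_eq_mul, Rat.cast_mul]

/-- The real extension of a rational linear map between different spaces. -/
theorem exists_ext2 (X Y : AV) (g : X.H →ₗ[ℚ] Y.H) :
    ∃ R : X.T →ₗ[ℝ] Y.T, ∀ v, R (X.per v) = Y.per (g v) := by
  let b := finBasis ℚ X.H
  obtain ⟨β, hβ⟩ := exists_realBasis X b
  refine ⟨β.constr ℝ fun k => Y.per (g (b k)), fun v => ?_⟩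
  conv_lhs => rw [← b.sum_repr v]
  conv_rhs => rw [← b.sum_repr v]
  rw [map_sum, map_sum, map_sum, map_sum]
  refine Finset.sum_congr rfl fun k _ => ?_
  rw [per_smul, map_smul, ← hβ, Basis.constr_basis, map_smul, per_smul]

/-- The tangent map of an injective homomorphism is injective. -/
theorem tan_inj {X Y : AV} {f : X.H →ₗ[ℚ] Y.H} {Ψ : X.T →ₗ[ℂ] Y.T}
    (hΨ : ∀ v, Ψ (X.per v) = Y.per (f v)) (hf : Function.Injective f) : Function.Injective Ψ := by
  obtain ⟨p, hp⟩ := LinearMap.exists_leftInverse_of_injective f (LinearMap.ker_eq_bot.2 hf)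
  obtain ⟨R, hR⟩ := exists_ext2 Y X p
  have h1 : R.comp (Ψ.restrictScalars ℝ) = LinearMap.id := by
    refine ext_per X fun v => ?_
    rw [LinearMap.comp_apply, LinearMap.restrictScalars_apply, hΨ, hR, LinearMap.id_apply]
    congr 1
    exact LinearMap.congr_fun hp v
  intro s t hst
  have h2 := LinearMap.congr_fun h1 s
  have h3 := LinearMap.congr_fun h1 t
  rw [LinearMap.comp_apply, LinearMap.restrictScalars_apply, LinearMap.id_apply] at h2 h3
  rw [← h2, ← h3, hst]

/-- Simple factors of an abelian variety with an action of a field of degree twice the dimension. -/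
theorem cm_of_sub (A : AV) (K : Type) [Field K] [NumberField K] (e : A.H ≃ₗ[ℚ] K)
    (hK : ∀ a : K, IsHom A A (act A K e a)) (Y : AV) (hs : IsSimple Y) (i : Y.H →ₗ[ℚ] A.H)
    (hi : IsHom Y A i) (hinj : Function.Injective i) : HasCMultIn Y K := by
  classical
  let b := finBasis ℚ K
  let n := finrank ℚ K
  obtain ⟨β, hβ⟩ := exists_realBasis A (b.map e.symm)
  let ρ : Fin n → ℝ := fun k => β.repr (Complex.I • A.per (e.symm 1)) k
  have h1 : Complex.I • A.per (e.symm 1) = ∑ k, ρ k • A.per (e.symm (b k)) := by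
    rw [← β.sum_repr (Complex.I • A.per (e.symm 1))]
    refine Finset.sum_congr rfl fun k _ => ?_
    rw [hβ, Basis.map_apply]
  have h2 : ∀ v, Complex.I • A.per v = ∑ k, ρ k • A.per (act A K e (b k) v) := by
    intro v
    have h3 : A.per v = Tn A K e hK (e v) (A.per (e.symm 1)) := by
      rw [Tn_per, act_apply, LinearEquiv.apply_symm_apply, mul_one, LinearEquiv.symm_apply_apply]
    rw [h3, ← map_smul, h1, map_sum]
    refine Finset.sum_congr rfl fun k _ => ?_
    have h4 : Tn A K e hK (e v) (ρ k • A.per (e.symm (b k))) =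
        ρ k • Tn A K e hK (e v) (A.per (e.symm (b k))) :=
      ((Tn A K e hK (e v)).restrictScalars ℝ).map_smul _ _
    rw [h4, Tn_per, act_apply, act_apply, LinearEquiv.apply_symm_apply, mul_comm]
  -- a rational basis of the coefficients
  let W : Submodule ℚ ℝ := Submodule.span ℚ (Set.range ρ)
  have hW : FiniteDimensional ℚ W := FiniteDimensional.span_of_finite ℚ (Set.finite_range ρ)
  let θ := finBasis ℚ W
  let m := finrank ℚ W
  let r : Fin n → W := fun k => ⟨ρ k, Submodule.subset_span ⟨k, rfl⟩⟩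
  let c : Fin n → Fin m → ℚ := fun k l => θ.repr (r k) l
  have hρ : ∀ k, ρ k = ∑ l, (c k l : ℝ) * (θ l : ℝ) := by
    intro k
    have h3 := congrArg Subtype.val (θ.sum_repr (r k))
    rw [Submodule.coe_sum] at h3
    rw [show ρ k = ((r k : W) : ℝ) from rfl, ← h3]
    refine Finset.sum_congr rfl fun l _ => ?_
    rw [Submodule.coe_smul, Rat.smul_def]
  have hθ : ∀ q : Fin m → ℚ, ∑ l, (q l : ℝ) * (θ l : ℝ) = 0 → ∀ l, q l = 0 := by
    intro q hq
    refine Fintype.linearIndependent_iff.1 θ.linearIndependent q ?_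
    apply Subtype.ext
    rw [Submodule.coe_sum, Submodule.coe_zero, ← hq]
    refine Finset.sum_congr rfl fun l _ => ?_
    rw [Submodule.coe_smul, Rat.smul_def]
  let γ : Fin m → K := fun l => ∑ k, c k l • b k
  have hγ : ∀ l v, act A K e (γ l) v = ∑ k, c k l • act A K e (b k) v := by
    intro l v
    rw [act_apply]
    simp only [γ]
    rw [Finset.sum_mul, map_sum]
    refine Finset.sum_congr rfl fun k _ => ?_
    rw [smul_mul_assoc, map_smul]
    rfl
  have hper : ∀ (q : ℚ) (v : A.H), A.per (q • v) = (q : ℝ) • A.per v := fun q v => per_smul _ _ _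
  have h5 : ∀ v, Complex.I • A.per v = ∑ l, (θ l : ℝ) • A.per (act A K e (γ l) v) := by
    intro v
    rw [h2]
    have h6 : ∀ l, (θ l : ℝ) • A.per (act A K e (γ l) v) =
        ∑ k, ((c k l : ℝ) * (θ l : ℝ)) • A.per (act A K e (b k) v) := by
      intro l
      rw [hγ, map_sum, Finset.smul_sum]
      refine Finset.sum_congr rfl fun k _ => ?_
      rw [hper, smul_smul, mul_comm]
    rw [Finset.sum_congr rfl fun l _ => h6 l, Finset.sum_comm]
    refine Finset.sum_congr rfl fun k _ => ?_
    rw [hρ, Finset.sum_smul]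
  -- the field elements which stabilize the subvariety
  have h7 : ∀ l y, ∃ z, i z = act A K e (γ l) (i y) := by
    intro l y
    have h8 : act A K e (γ l) (i y) ∈ LinearMap.range i := by
      rw [← Subspace.forall_mem_dualAnnihilator_apply_eq_zero_iff]
      intro φ hφ
      have hφ' : ∀ z, φ (i z) = 0 := fun z => (Submodule.mem_dualAnnihilator φ).1 hφ _ ⟨z, rfl⟩
      obtain ⟨R, hR⟩ := exists_extQ A φ
      obtain ⟨Ψ, hΨ⟩ := id hi
      have h9 : ∀ t, R (Ψ t) = 0 := by
        have h10 : R.comp (Ψ.restrictScalars ℝ) = 0 := by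
          refine ext_per Y fun v => ?_
          rw [LinearMap.comp_apply, LinearMap.restrictScalars_apply, hΨ, hR, hφ', Rat.cast_zero]
          rfl
        exact fun t => LinearMap.congr_fun h10 t
      have h11 := h9 (Complex.I • Y.per y)
      rw [map_smul, hΨ, h5, map_sum] at h11
      have h12 : ∑ l, ((φ (act A K e (γ l) (i y)) : ℚ) : ℝ) * (θ l : ℝ) = 0 := by
        rw [← h11]
        refine Finset.sum_congr rfl fun l _ => ?_
        rw [map_smul, hR, smul_eq_mul, mul_comm]
      exact hθ _ h12 l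
    exact h8
  let g := LinearMap.exists_leftInverse_of_injective i (LinearMap.ker_eq_bot.2 hinj)
  obtain ⟨p, hp⟩ := g
  have hp' : ∀ v, p (i v) = v := fun v => LinearMap.congr_fun hp v
  let s : Fin m → Module.End ℚ Y.H := fun l => p.comp ((act A K e (γ l)).comp i)
  have hsl : ∀ l y, i (s l y) = act A K e (γ l) (i y) := by
    intro l y
    obtain ⟨z, hz⟩ := h7 l y
    change i (p (act A K e (γ l) (i y))) = _
    rw [← hz, hp']
  -- the algebra
  have hmul : ∀ a a' v, act A K e a (act A K e a' v) = act A K e (a * a') v := by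
    intro a a' v
    rw [act_apply, e_act, act_apply, mul_assoc]
  let S : Subalgebra ℚ (Module.End ℚ Y.H) :=
    { carrier := {u | ∃ a : K, ∀ y, i (u y) = act A K e a (i y)}
      mul_mem' := by
        rintro u u' ⟨a, ha⟩ ⟨a', ha'⟩
        refine ⟨a * a', fun y => ?_⟩
        rw [Module.End.mul_apply, ha, ha', hmul]
      add_mem' := by
        rintro u u' ⟨a, ha⟩ ⟨a', ha'⟩
        refine ⟨a + a', fun y => ?_⟩
        rw [LinearMap.add_apply, map_add, ha, ha', act_apply, act_apply, act_apply, add_mul, map_add]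
      algebraMap_mem' := by
        intro q
        refine ⟨algebraMap ℚ K q, fun y => ?_⟩
        rw [Module.algebraMap_end_apply, map_smul, act_apply, ← Algebra.smul_def, map_smul,
          LinearEquiv.symm_apply_apply] }
  have hS : ∀ u, u ∈ S ↔ ∃ a : K, ∀ y, i (u y) = act A K e a (i y) := fun u => Iff.rfl
  obtain ⟨Ψ, hΨ⟩ := id hi
  have hcomm : ∀ u ∈ S, ∀ u' ∈ S, u * u' = u' * u := by
    intro u hu u' hu'
    obtain ⟨a, ha⟩ := (hS _).1 hu
    obtain ⟨a', ha'⟩ := (hS _).1 hu'
    refine LinearMap.ext fun y => hinj ?_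
    rw [Module.End.mul_apply, Module.End.mul_apply, ha, ha', ha', ha, hmul, hmul, mul_comm]
  obtain ⟨h14, h15⟩ := cm_criterion Y hs S hcomm (fun l => (θ l : ℝ)) s
    (fun l => (hS _).2 ⟨γ l, hsl l⟩) fun y => by
      apply tan_inj hΨ hinj
      rw [map_smul, hΨ, h5, map_sum]
      refine Finset.sum_congr rfl fun l _ => ?_
      have h13 : Ψ ((θ l : ℝ) • Y.per (s l y)) = (θ l : ℝ) • Ψ (Y.per (s l y)) :=
        (Ψ.restrictScalars ℝ).map_smul _ _
      rw [h13, hΨ, hsl]
  refine ⟨S, hcomm, h14, h15, ?_⟩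
  -- the homomorphism to the field
  obtain ⟨y0, hy0⟩ := hs.1
  have hx0 : e (i y0) ≠ 0 := by
    intro h0
    apply hy0
    apply hinj
    apply e.injective
    rw [h0, map_zero, map_zero]
  let η : S → K := fun u => e (i ((u : Module.End ℚ Y.H) y0)) / e (i y0)
  have hη : ∀ (u : S) (a : K), (∀ y, i ((u : Module.End ℚ Y.H) y) = act A K e a (i y)) → η u = a := by
    intro u a ha
    change e (i ((u : Module.End ℚ Y.H) y0)) / e (i y0) = a
    rw [ha, e_act, mul_div_assoc, div_self hx0, mul_one]
  refine ⟨{ toFun := η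
            map_one' := hη _ _ fun y => ?_
            map_zero' := hη _ _ fun y => ?_
            map_mul' := fun u u' => ?_
            map_add' := fun u u' => ?_ }⟩
  · rw [act_apply, one_mul, LinearEquiv.symm_apply_apply]
    rfl
  · obtain ⟨a, ha⟩ := (hS _).1 u.2
    obtain ⟨a', ha'⟩ := (hS _).1 u'.2
    rw [hη u a ha, hη u' a' ha']
    refine hη _ _ fun y => ?_
    rw [← hmul, ← ha', ← ha]
    rfl
  · rw [act_apply, zero_mul, map_zero, ZeroMemClass.coe_zero, LinearMap.zero_apply, map_zero]
  · obtain ⟨a, ha⟩ := (hS _).1 u.2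
    obtain ⟨a', ha'⟩ := (hS _).1 u'.2
    rw [hη u a ha, hη u' a' ha']
    refine hη _ _ fun y => ?_
    rw [act_apply, add_mul, map_add, ← act_apply, ← act_apply, ← ha', ← ha, ← map_add]
    rfl

/-- Simple factors of abelian varieties of CM type have complex multiplication. -/
theorem cm_of_factor (X : CMAV) (Y : AV) (hY : IsFactor Y (av X)) :
    ∃ k, HasCMultIn Y (X.factor k).E := by
  obtain ⟨hs, i, hi, hinj⟩ := hY
  obtain ⟨k, hk⟩ : ∃ k : X.I, (LinearMap.proj k : X.H1 →ₗ[ℚ] (X.factor k).E).comp i ≠ 0 := by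
    by_contra hcon
    push Not at hcon
    obtain ⟨y, hy⟩ := hs.1
    refine hy (hinj ?_)
    rw [map_zero]
    funext k
    exact congrArg (fun φ => φ y) (hcon k)
  refine ⟨k, ?_⟩
  let P := X.factor k
  let e : (av (single P)).H ≃ₗ[ℚ] P.E := LinearEquiv.funUnique Unit ℚ P.E
  have hK : ∀ a : P.E, IsHom (av (single P)) (av (single P)) (act (av (single P)) P.E e a) := by
    intro a
    refine ⟨{ toFun := fun (u : (single P).Tan) => ((fun _ φ => φ.1 a * u () φ) : (single P).Tan)
              map_add' := fun u v => ?_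
              map_smul' := fun c u => ?_ }, fun v => ?_⟩
    · funext _ φ
      exact mul_add _ _ _
    · funext _ φ
      exact mul_left_comm _ _ _
    · funext _ φ
      exact (map_mul φ.1 a (v ())).symm
  let j : Y.H →ₗ[ℚ] (av (single P)).H :=
    e.symm.toLinearMap.comp ((LinearMap.proj k : X.H1 →ₗ[ℚ] (X.factor k).E).comp i)
  have hj : IsHom Y (av (single P)) j := by
    obtain ⟨Ψ, hΨ⟩ := hi
    refine ⟨{ toFun := fun t => ((fun _ φ => (Ψ t : X.Tan) k φ) : (single P).Tan)
              map_add' := fun u v => ?_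
              map_smul' := fun c u => ?_ }, fun v => ?_⟩
    · funext _ φ
      exact congrFun (congrFun (map_add Ψ u v) k) φ
    · funext _ φ
      exact congrFun (congrFun (map_smul Ψ c u) k) φ
    · funext _ φ
      exact congrFun (congrFun (hΨ v) k) φ
  refine cm_of_sub (av (single P)) P.E e hK Y hs j hj (inj_of_simple hs hj fun h0 => hk ?_)
  refine LinearMap.ext fun y => ?_
  have h1 := LinearMap.congr_fun h0 y
  have h2 : e (j y) = 0 := by rw [h1, LinearMap.zero_apply, map_zero]
  exact h2

/-- The classes belong to the system if all Hodge classes do. -/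
theorem forms_of_all (𝒜 : Sys) {B : CMPair} {L : Type} [Field L] [NumberField L] [IsCMField L]
    [IsGalois ℚ L] {j j' : L →+* ℂ} (h : ∀ X, AllowedIn L X → 𝒜.AllHodge X) :
    HasForms 𝒜 B j j' := by
  intro ι Φ hq hp f hf
  refine h (av (threeB B L Φ hq.type)) (fun Y hY => Or.inl ?_) (Fin 4) f
    (Pool.Agent.W547.KB.hodge_weil ι Φ hq.type j hq.meet hq.meet' 1 f hf)
  obtain ⟨k, hk⟩ := cm_of_factor _ Y hY
  rcases k with k | k
  · exact hk
  · exact hk.map ι

/-- A factor is allowed if it is allowed with complex multiplications in a field. -/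
theorem AllowedIn.allowed {L : Type} [Field L] {X : AV} (h : AllowedIn L X) : Allowed X := by
  intro Y hY
  rcases h Y hY with k | ⟨-, k | k, -⟩
  · exact Or.inr (Or.inl k.cm)
  · exact Or.inl k
  · exact Or.inr (Or.inr k)

end

end Pool.Agent.N830.HC
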