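import Mathlib
import Pool.Agent.N830.HC.C1

/-!
# The system of all Hodge classes
-/

set_option linter.unusedSectionVars false

namespace Pool.Agent.N830.HC

open Module Pool.Agent.Y90 Pool.Agent.R915 NumberField Pool.Agent.TH504.CB Pool.Agent.W437.HC
open Pool.Agent.H204R3.CM (IsHodge IsCMType)
open Pool.Agent.W547.KB (CMPair CMAV three single threeB IsWeilForm)

noncomputable section

/-- The system of all Hodge classes. -/
def hodgeSys : Sys where
  A := fun X κ f => Finite κ → IsHodge X.per f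
  unit := by
    intro X κ _ f _
    refine ⟨MultilinearMap.constOfIsEmpty ℝ (fun _ => X.T) ((f 0 : ℚ) : ℝ), fun v => ?_,
      fun z _ u => ?_⟩
    · rw [Subsingleton.elim v 0]
      rfl
    · rfl
  divisor := fun hκ f hf _ => hf
  weil := fun hn f hf _ => hf.2.1
  zero := by
    intro X κ _
    refine ⟨0, fun v => ?_, fun z _ u => rfl⟩
    rw [_root_.zero_apply, AlternatingMap.zero_apply, Rat.cast_zero]
  add := by
    intro X κ f g hf hg hfin
    obtain ⟨ψ, h1, h2⟩ := hf hfin
    obtain ⟨ψ', h3, h4⟩ := hg hfin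
    refine ⟨ψ + ψ', fun v => ?_, fun z hz u => ?_⟩
    · rw [_root_.add_apply, h1, h3, AlternatingMap.add_apply, Rat.cast_add]
    · rw [_root_.add_apply, _root_.add_apply, h2 z hz, h4 z hz]
  smul := by
    intro X κ a f hf hfin
    obtain ⟨ψ, h1, h2⟩ := hf hfin
    refine ⟨(a : ℝ) • ψ, fun v => ?_, fun z hz u => ?_⟩
    · rw [_root_.smul_apply, h1, AlternatingMap.smul_apply, smul_eq_mul, smul_eq_mul, Rat.cast_mul]
    · rw [_root_.smul_apply, _root_.smul_apply, h2 z hz]
  reindex := by
    intro X κ κ' e f hf hfin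
    obtain ⟨ψ, h1, h2⟩ := hf (Finite.of_equiv _ e.symm)
    refine ⟨ψ.domDomCongr e, fun v => ?_, fun z hz u => ?_⟩
    · rw [MultilinearMap.domDomCongr_apply, AlternatingMap.domDomCongr_apply]
      exact h1 _
    · rw [MultilinearMap.domDomCongr_apply, MultilinearMap.domDomCongr_apply]
      exact h2 z hz _
  cup := by
    intro X κ κ' _ _ _ _ f g hf hg h hh _
    obtain ⟨ψ, h1, h2⟩ := hf inferInstance
    obtain ⟨ψ', h3, h4⟩ := hg inferInstance
    have h5 : h = MultilinearMap.alternatization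
        (prd f.toMultilinearMap g.toMultilinearMap) := by
      ext v
      rw [hh, MultilinearMap.alternatization_apply]
      refine Finset.sum_congr rfl fun σ _ => ?_
      rw [MultilinearMap.domDomCongr_apply, prd_apply, Units.smul_def, zsmul_eq_mul]
      rfl
    rw [h5]
    refine isHodge_alt (prd ψ ψ') (fun v => ?_) fun z hz u => ?_
    · rw [prd_apply, prd_apply, h1, h3]
      push_cast
      rfl
    · rw [prd_apply, prd_apply, h2 z hz, h4 z hz]
  pull := by
    intro X Y h hh κ f hf hfin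
    obtain ⟨Ψ, hΨ⟩ := hh
    exact isHodge_comp h Ψ hΨ (hf hfin)
  push := by
    intro X Y P i hi j hj hij κ κ' b f hf g hg hfin
    have h1 := Y.finH
    have h2 : Finite κ' := Module.Finite.finite_basis b
    exact isHodge_push i hi j hj b f (hf inferInstance) g hg

theorem hodgeSys_forms (B : CMPair) {L : Type} [Field L] [NumberField L] [IsCMField L]
    [IsGalois ℚ L] (j j' : L →+* ℂ) : HasForms hodgeSys B j j' :=
  forms_of_all hodgeSys fun _ _ _ _ _ hf _ => hf

/-- The Hodge classes are exactly the classes which belong to all systems which contain the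
classes of degree four. -/
theorem hodge_iff {B : CMPair} {L : Type} [Field L] [NumberField L] [IsCMField L]
    [IsGalois ℚ L] {j j' : L →+* ℂ} (ι : B.E →+* L) (hj' : j' ≠ ComplexEmbedding.conjugate j)
    (X : AV) (hX : AllowedIn L X) (κ : Type) [Finite κ] (f : X.H [⋀^κ]→ₗ[ℚ] ℚ) :
    IsHodge X.per f ↔ ∀ 𝒜 : Sys, HasForms 𝒜 B j j' → 𝒜.A X κ f :=
  ⟨fun hf 𝒜 h𝒜 => all_of_forms 𝒜 ι hj' h𝒜 X hX κ f hf,
    fun h => h hodgeSys (hodgeSys_forms B j j') inferInstance⟩

/-- The reduction for one field. -/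
theorem reduction {B : CMPair} {L : Type} [Field L] [NumberField L] [IsCMField L]
    [IsGalois ℚ L] (j j' : L →+* ℂ) (ι : B.E →+* L) (hj' : j' ≠ ComplexEmbedding.conjugate j)
    (𝒜 : Sys) : (∀ X : AV, AllowedIn L X → 𝒜.AllHodge X) ↔ HasForms 𝒜 B j j' :=
  ⟨fun h => forms_of_all 𝒜 h, fun h X hX => all_of_forms 𝒜 ι hj' h X hX⟩

/-- Embeddings of a CM field are not real. -/
theorem conj_ne {L : Type} [Field L] [NumberField L] [IsCMField L] (j : L →+* ℂ) :
    j ≠ ComplexEmbedding.conjugate j := fun h =>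
  NumberField.IsTotallyComplex.complexEmbedding_not_isReal j h.symm

/-- The reduction for all fields. -/
theorem reduction' (B : CMPair) (𝒜 : Sys) :
    (∀ X : AV, Allowed X → 𝒜.AllHodge X) ↔
      ∀ (L₀ : Type) [Field L₀] [NumberField L₀] [IsCMField L₀] [IsGalois ℚ L₀],
        ∃ (L : Type) (_ : Field L) (_ : NumberField L) (_ : IsCMField L) (_ : IsGalois ℚ L)
          (_ : L₀ →+* L) (j j' : L →+* ℂ), j' ≠ ComplexEmbedding.conjugate j ∧
            HasForms 𝒜 B j j' := by
  refine ⟨fun h L₀ _ _ _ _ => ?_, fun h X hX => all_of_forms' 𝒜 h X hX⟩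
  let j : L₀ →+* ℂ := Classical.choice inferInstance
  exact ⟨L₀, inferInstance, inferInstance, inferInstance, inferInstance, RingHom.id L₀,
    j, j, conj_ne j, forms_of_all 𝒜 fun X hX => h X hX.allowed⟩

end

end Pool.Agent.N830.HC
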