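import Mathlib
import Pool.Agent.N830.HC.D1
import Pool.Agent.N830.HC.Count

/-!
# The relative version, and the forms
-/

set_option linter.unusedSectionVars false

namespace Pool.Agent.N830.HC

open Module Pool.Agent.Y90 Pool.Agent.R915 NumberField
open Pool.Agent.H204R3.CM (IsHodge IsCMType)
open Pool.Agent.W547.KB (CMPair CMAV three single threeB IsWeilForm Wt trForm trForm_apply
  mono_eq_det trDet)

noncomputable section

/-- Abelian varieties isogenous to an abelian variety of CM type have complex multiplication. -/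
theorem cm_of_type {Y : AV} {P : CMPair} (h : IsOfType Y P) : HasCMult Y := by
  obtain ⟨e, Ψ, hΨ⟩ := h
  have hhom : ∀ a : P.E, IsHom Y Y (act Y P.E e a) := by
    intro a
    let M : (P.Φ → ℂ) →ₗ[ℂ] (P.Φ → ℂ) :=
      { toFun := fun u φ => φ.1 a * u φ
        map_add' := fun u v => by
          funext φ
          exact mul_add _ _ _
        map_smul' := fun c u => by
          funext φ
          exact mul_left_comm _ _ _ }
    refine ⟨Ψ.symm.toLinearMap.comp (M.comp Ψ.toLinearMap), fun v => ?_⟩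
    change Ψ.symm (M (Ψ (Y.per v))) = _
    rw [LinearEquiv.symm_apply_eq]
    funext φ
    change φ.1 a * Ψ (Y.per v) φ = _
    rw [hΨ, hΨ, e_act, map_mul]
  let ρ : P.E →ₗ[ℚ] Module.End ℚ Y.H :=
    { toFun := fun a => act Y P.E e a
      map_add' := fun a b => by
        refine LinearMap.ext fun v => ?_
        rw [act_apply, add_mul, map_add]
        rfl
      map_smul' := fun c a => by
        refine LinearMap.ext fun v => ?_
        rw [act_apply, smul_mul_assoc, map_smul]
        rfl }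
  have hρmul : ∀ a b, ρ (a * b) = ρ a * ρ b := by
    intro a b
    refine LinearMap.ext fun v => ?_
    change act Y P.E e (a * b) v = act Y P.E e a (act Y P.E e b v)
    rw [act_apply, act_apply, e_act, mul_assoc]
  have hρ1 : ρ 1 = 1 := by
    refine LinearMap.ext fun v => ?_
    change act Y P.E e 1 v = v
    rw [act_apply, one_mul, LinearEquiv.symm_apply_apply]
  let R : P.E →ₐ[ℚ] Module.End ℚ Y.H := AlgHom.ofLinearMap ρ hρ1 hρmul
  refine ⟨R.range, ?_, ?_, ?_⟩
  · rintro _ ⟨a, rfl⟩ _ ⟨b, rfl⟩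
    rw [← map_mul, ← map_mul, mul_comm]
  · have hinj : Function.Injective R := by
      intro a b hab
      have h1 : ρ a = ρ b := hab
      have h2 := LinearMap.congr_fun h1 (e.symm 1)
      have h3 : e.symm (a * e (e.symm 1)) = e.symm (b * e (e.symm 1)) := h2
      have h4 := e.symm.injective h3
      rwa [LinearEquiv.apply_symm_apply, mul_one, mul_one] at h4
    rw [e.finrank_eq]
    exact (LinearEquiv.finrank_eq (AlgEquiv.ofInjective R hinj).toLinearEquiv).symm
  · rintro _ ⟨a, rfl⟩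
    exact hhom a

/-- The relative version of the reduction. -/
theorem all_of_types (𝒜 : Sys) (𝒯 : CMPair → Prop)
    (hT : ∀ (C : CMAV) (hp : ∃ E, IsPolarization C.per E), (∀ i, 𝒯 (C.factor i)) →
      𝒜.AllHodge (avC C hp)) (X : AV)
    (hX : ∀ Y, IsFactor Y X → (∃ P, 𝒯 P ∧ IsOfType Y P) ∨
      (¬ HasCMult Y ∧ (finrank ℚ Y.H ≤ 6 ∨ QuadMult Y ∨ RealMult Y ∨ FiveDim Y ∨ FullHodge Y) ∧
        ∀ (E : AV) (d : ℚ), Unbalanced Y d → IsSimple E → HasCMult E → finrank ℚ E.H = 2 →
          Unbalanced E d → ∃ P, 𝒯 P ∧ IsOfType E P)) : 𝒜.AllHodge X := by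
  refine main_cm 𝒜 X (fun a Z' h' i hi hinj hsim ha => ?_) fun Q _ _ a Z' h' hc => ?_
  · rcases hX (AVZ h') ⟨hsim, i, hi, hinj⟩ with ⟨P, -, k⟩ | ⟨hcm, k, -⟩
    · exact Or.inr (cm_of_type k)
    · exact Or.inl ⟨hcm, lc_of h' hsim ha hcm k⟩
  · have key : ∀ q, ∃ P : CMPair, 𝒯 P ∧ IsOfType (AVZ (h' q)) P := by
      intro q
      obtain ⟨h3, h4, h5 | ⟨h5, d, h6, Y', hY', hn, h7⟩⟩ := hc q
      · rcases hX _ h5 with k | ⟨k, -⟩
        · exact k
        · exact absurd h4 k
      · rcases hX _ hY' with ⟨P, -, k⟩ | ⟨-, -, k⟩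
        · exact absurd (cm_of_type k) hn
        · exact k _ d h7 h3 h4 h5 h6
    choose p hp1 hp2 using key
    exact prod_cm 𝒜 h' p hp2 (hT ⟨Q, p⟩ _ hp1)

/-- The Weil form exists, it is unique, and it is a Hodge class. -/
theorem exists_form (B : CMPair) {L : Type} [Field L] [NumberField L] [IsCMField L]
    [IsGalois ℚ L] {j j' : L →+* ℂ} (ι : B.E →+* L) (Φ : Fin 3 → Set (L →+* ℂ))
    (h : Quad B j j' ι Φ) : ∃ f : (threeB B L Φ h.type).H1 [⋀^Fin 4]→ₗ[ℚ] ℚ,
      (∀ g, IsWeilForm B L ι Φ h.type 1 g ↔ g = f) ∧ IsHodge (threeB B L Φ h.type).per f := by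
  let I : Fin 4 → Wt (threeB B L Φ h.type) L :=
    ![⟨Sum.inl 0, RingHom.id L⟩, ⟨Sum.inl 1, RingHom.id L⟩, ⟨Sum.inl 2, RingHom.id L⟩,
      ⟨Sum.inr (), ι⟩]
  have h1 : IsWeilForm B L ι Φ h.type 1 (trForm 1 I) := by
    intro x t
    rw [trForm_apply, mono_eq_det]
    congr 3
  refine ⟨trForm 1 I, fun g => ⟨fun hg => ?_, ?_⟩, ?_⟩
  · refine AlternatingMap.ext fun v => ?_
    have h4 : v = fun k => (three L Φ h.type).pair (single B) (fun i => v k (Sum.inl i))
        (fun i => v k (Sum.inr i)) := by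
      funext k s
      cases s <;> rfl
    have h2 := hg (fun k i => v k (Sum.inl i)) (fun k i => v k (Sum.inr i))
    have h3 := h1 (fun k i => v k (Sum.inl i)) (fun k i => v k (Sum.inr i))
    rw [← h4] at h2 h3
    rw [h2, h3]
  · rintro rfl
    exact h1
  · exact Pool.Agent.W547.KB.hodge_weil ι Φ h.type j h.meet h.meet' 1 _ h1

end

end Pool.Agent.N830.HC
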