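import Mathlib
import Pool.Agent.N830.HC.E1

/-!
# Frames: CM fields with two complex embeddings, and the classes of degree four
-/

namespace Pool.Agent.N830.HC

open Module Pool.Agent.Y90 Pool.Agent.R915 NumberField
open Pool.Agent.H204R3.CM (IsHodge IsCMType)
open Pool.Agent.W547.KB (CMPair CMAV threeB IsWeilForm)

/-- A CM field `L`, Galois over `ℚ`, which contains (an image of) the field of `B`, with two complex
embeddings `j`, `j'` which are not complex conjugate to each other. -/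
structure Frame (B : CMPair) where
  /-- the field -/
  L : Type
  [field : Field L]
  [numberField : NumberField L]
  [cm : IsCMField L]
  [gal : IsGalois ℚ L]
  /-- the field of `B` is contained in `L` -/
  emb : B.E →+* L
  /-- the first embedding -/
  j : L →+* ℂ
  /-- the second embedding -/
  j' : L →+* ℂ
  ne : j' ≠ ComplexEmbedding.conjugate j

attribute [instance] Frame.field Frame.numberField Frame.cm Frame.gal

variable {B : CMPair}

/-- An embedding `ι` of the field of `B` into `L` and three CM types `Φ 0`, `Φ 1`, `Φ 2` of `L` such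
that `Φ 0 ∩ Φ 1 = {j}`, the CM type `Φ 2` and the CM type induced from `B` by `ι` have exactly the
complex conjugate of `j` in common, `j' ∈ Φ 0`, and neither `Φ 0` nor `Φ 1` is the complement of
`Φ 2` (see `Quad`). -/
structure Frame.Datum (F : Frame B) where
  /-- the embedding -/
  ι : B.E →+* F.L
  /-- the CM types -/
  Φ : Fin 3 → Set (F.L →+* ℂ)
  quad : Quad B F.j F.j' ι Φ

/-- The product `A₀ × A₁ × A₂ × B` of the abelian varieties of CM types `(L, Φ 0)`, `(L, Φ 1)`,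
`(L, Φ 2)` and of `B`. -/
noncomputable abbrev Frame.Datum.X {F : Frame B} (d : F.Datum) : AV := av (threeB B F.L d.Φ d.quad.type)

/-- `f` is the class `Tr (x₀ ∧ x₁ ∧ x₂ ∧ ι t)` of degree four on the product `A₀ × A₁ × A₂ × B`.
Here `x₀`, `x₁`, `x₂`, `t` are the coordinates on the rational homology `H₁ = L × L × L × E`, with
the field `E` of `B`, and `Tr` is the trace from `L` to `ℚ`. -/
def Frame.Datum.IsClass {F : Frame B} (d : F.Datum) (f : d.X.H [⋀^Fin 4]→ₗ[ℚ] ℚ) : Prop :=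
  IsWeilForm B F.L d.ι d.Φ d.quad.type 1 f

/-- The system `𝒜` contains the classes of degree four which belong to `F`. -/
def Frame.In (F : Frame B) (𝒜 : Sys) : Prop :=
  ∀ (d : F.Datum) (f : d.X.H [⋀^Fin 4]→ₗ[ℚ] ℚ), d.IsClass f → 𝒜.A d.X (Fin 4) f

theorem Frame.in_iff (F : Frame B) (𝒜 : Sys) : F.In 𝒜 ↔ HasForms 𝒜 B F.j F.j' :=
  ⟨fun h ι Φ hq _ f hf => h ⟨ι, Φ, hq⟩ f hf, fun h d f hf => h d.ι d.Φ d.quad (polar _) f hf⟩

/-- The number of data. -/
theorem Frame.card (F : Frame B) (hne : F.j' ≠ F.j) {m : ℕ} (hm : finrank ℚ F.L = 2 * m) :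
    Nat.card F.Datum = Nat.card B.Φ * (2 ^ (m - 2) - 1) := by
  rw [← Pool.Agent.N830.HC.K.card_quad hne F.ne F.emb hm]
  exact Nat.card_congr ⟨fun d => ⟨(d.ι, d.Φ), d.quad⟩, fun p => ⟨p.1.1, p.1.2, p.2⟩,
    fun _ => rfl, fun _ => rfl⟩

/-- The reduction for all fields. -/
theorem all_iff (B : CMPair) (𝒜 : Sys) : (∀ X : AV, Allowed X → 𝒜.AllHodge X) ↔
    ∀ F₀ : Frame B, ∃ F : Frame B, Nonempty (F₀.L →+* F.L) ∧ F.In 𝒜 := by
  refine ⟨fun h F => ⟨F, ⟨RingHom.id _⟩, (F.in_iff 𝒜).2 (forms_of_all 𝒜 fun X hX =>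
    h X hX.allowed)⟩, fun h X hX => ?_⟩
  refine main_cm 𝒜 X (fun a Z' h' i hi hinj hsim ha => ?_) fun Q _ _ a Z' h' hc => ?_
  · by_cases hcm : HasCMult (AVZ h')
    · exact Or.inr hcm
    refine Or.inl ⟨hcm, lc_of h' hsim ha hcm ?_⟩
    rcases hX (AVZ h') ⟨hsim, i, hi, hinj⟩ with k | k | k
    · exact Or.inl k
    · exact absurd k hcm
    · exact Or.inr k
  · choose p hp using fun q => exists_type _ (hc q).1 (hc q).2.1
    refine prod_cm 𝒜 h' p hp ?_
    let X' : CMAV := ⟨Q, p⟩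
    have hne : Nonempty (X'.prod (Pool.Agent.W547.KB.single B)).I := ⟨Sum.inr ()⟩
    obtain ⟨L₀, _, _, _, _, j₀, hj⟩ :=
      Pool.Agent.W547.KB.exists_cm (X'.prod (Pool.Agent.W547.KB.single B))
    obtain ⟨ι, -⟩ := hj (Sum.inr ()) (Classical.choice inferInstance)
    obtain ⟨F, ⟨f⟩, hF⟩ := h ⟨L₀, ι, j₀, j₀, conj_ne j₀⟩
    refine all_cm 𝒜 (f.comp ι) F.ne ((F.in_iff 𝒜).1 hF) X' fun q => ?_
    obtain ⟨φ, -⟩ := hj (Sum.inl q) (Classical.choice inferInstance)
    exact ⟨f.comp φ⟩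

end Pool.Agent.N830.HC
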